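import Pool.Agent.V7H83.MC.G

/-!
# The equivalences
-/

set_option autoImplicit false

open Finset

namespace Pool.Agent.V7H83.MC

/-- large values of all polynomials -/
def LV (α : ℝ) : Prop := ∀ (K : ℕ) (ε : ℝ), 0 < ε → ∃ C : ℝ, 0 < C ∧
  ∀ (N : ℕ) (V : ℝ) (a : ℕ → ℂ) (S : Finset ℝ), 1 ≤ N → (∀ n, ‖a n‖ ≤ 1) → (N : ℝ) ^ (1 / 2 + ε) ≤ V →
  (∀ t ∈ S, 0 ≤ t ∧ t ≤ (N : ℝ) ^ K ∧ V ≤ ‖∑ n ∈ Icc 1 N, a n * (n : ℂ) ^ (-((t : ℂ) * Complex.I))‖) →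
  (∀ t ∈ S, ∀ u ∈ S, t ≠ u → 1 ≤ |t - u|) → (S.card : ℝ) ≤ C * (N : ℝ) ^ (2 + α + ε) / V ^ 2

/-- the bilinear form at the critical size -/
def BilA (α : ℝ) : Prop := ∀ (K : ℕ) (ε : ℝ), 0 < ε → ∃ C : ℝ, 0 < C ∧ ∀ (N : ℕ) (A S : Finset ℕ),
  1 ≤ N → A ⊆ Icc 1 N → (∀ t ∈ S, t ≤ N ^ K) → (S.card : ℝ) ≤ (N : ℝ) ^ (1 + α) →
  ‖∑ n ∈ A, ∑ t ∈ S, (n : ℂ) ^ ((t : ℂ) * Complex.I)‖ ≤ C * (N : ℝ) ^ (3 / 2 + α + ε)

theorem l1_of_bilA {α : ℝ} (h : BilA α) : L1 α := by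
  intro K ε hε
  obtain ⟨C, hC, H⟩ := h K ε hε
  refine ⟨4 * C, by positivity, fun N S hN hS hc => ?_⟩
  have h1 := abs_le_subset (Icc 1 N) (sm S) (fun A hA => H N A S hN hA hS hc)
  linarith

/-- sets of integers to sets of reals -/
lemma lv_int {α : ℝ} {K : ℕ} {ε C : ℝ}
    (H : ∀ (N : ℕ) (V : ℝ) (a : ℕ → ℂ) (S : Finset ℝ), 1 ≤ N → (∀ n, ‖a n‖ ≤ 1) → (N : ℝ) ^ (1 / 2 + ε) ≤ V →
      (∀ t ∈ S, 0 ≤ t ∧ t ≤ (N : ℝ) ^ K ∧ V ≤ ‖∑ n ∈ Icc 1 N, a n * (n : ℂ) ^ (-((t : ℂ) * Complex.I))‖) →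
      (∀ t ∈ S, ∀ u ∈ S, t ≠ u → 1 ≤ |t - u|) → (S.card : ℝ) ≤ C * (N : ℝ) ^ (2 + α + ε) / V ^ 2)
    (N : ℕ) (V : ℝ) (A S : Finset ℕ) (hN : 1 ≤ N) (hA : A ⊆ Icc 1 N) (hV : (N : ℝ) ^ (1 / 2 + ε) ≤ V)
    (hS : ∀ t ∈ S, t ≤ N ^ K ∧ V ≤ ‖∑ n ∈ A, (n : ℂ) ^ (-((t : ℂ) * Complex.I))‖) :
    (S.card : ℝ) ≤ C * (N : ℝ) ^ (2 + α + ε) / V ^ 2 := by
  classical
  have hinj : Function.Injective (fun k : ℕ => (k : ℝ)) := Nat.cast_injective
  have h1 := H N V (fun n => if n ∈ A then 1 else 0) (S.map ⟨_, hinj⟩) hN (fun n => by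
      by_cases hn : n ∈ A
      · simp [hn]
      · simp [hn]) hV ?_ ?_
  · rwa [card_map] at h1
  · intro t ht
    obtain ⟨k, hk, rfl⟩ := mem_map.1 ht
    obtain ⟨h2, h3⟩ := hS k hk
    refine ⟨Nat.cast_nonneg k, (by show (k : ℝ) ≤ (N : ℝ) ^ K; exact_mod_cast h2), ?_⟩
    have e : ∑ n ∈ Icc 1 N, (if n ∈ A then (1 : ℂ) else 0) * (n : ℂ) ^ (-((((k : ℝ)) : ℂ) * Complex.I)) =
        ∑ n ∈ A, (n : ℂ) ^ (-((k : ℂ) * Complex.I)) := by
      simp only [ite_mul, one_mul, zero_mul, Complex.ofReal_natCast]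
      rw [← sum_filter]
      congr 1
      ext n
      simp only [mem_filter]
      exact ⟨fun h => h.2, fun h => ⟨hA h, h⟩⟩
    show V ≤ ‖∑ n ∈ Icc 1 N, (if n ∈ A then (1 : ℂ) else 0) * (n : ℂ) ^ (-((((k : ℝ)) : ℂ) * Complex.I))‖
    rw [e]
    exact h3
  · intro t ht u hu htu
    obtain ⟨k, hk, rfl⟩ := mem_map.1 ht
    obtain ⟨l, hl, rfl⟩ := mem_map.1 hu
    have h2 : (k : ℤ) - l ≠ 0 := by
      intro h3
      apply htu
      have : k = l := by omega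
      rw [this]
    have h3 : (1 : ℤ) ≤ |(k : ℤ) - l| := Int.one_le_abs h2
    show (1 : ℝ) ≤ |(k : ℝ) - l|
    exact_mod_cast h3

theorem end_of_lv {α : ℝ} (h : LV α) : End α := by
  intro K ε hε
  obtain ⟨C, hC, H⟩ := h K ε hε
  refine ⟨C, hC, fun N A S hN hA hS => ?_⟩
  have hN1 : (1 : ℝ) ≤ N := by exact_mod_cast hN
  have hN0 : (0 : ℝ) < N := by linarith
  have h1 := lv_int H N _ A S hN hA le_rfl hS
  refine h1.trans ?_
  have e : ((N : ℝ) ^ (1 / 2 + ε)) ^ 2 = (N : ℝ) ^ (1 + 2 * ε) := by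
    rw [← Real.rpow_natCast, ← Real.rpow_mul hN0.le]; congr 1; push_cast; ring
  rw [e, mul_div_assoc, ← Real.rpow_sub hN0]
  refine mul_le_mul_of_nonneg_left ?_ hC.le
  exact Real.rpow_le_rpow_of_exponent_le hN1 (by linarith)

lemma geo_two (n : ℕ) : ∑ j ∈ range n, (1 / 2 : ℝ) ^ j ≤ 2 := by
  have h0 := geom_sum_eq (show (1 / 2 : ℝ) ≠ 1 by norm_num) n
  rw [h0, div_le_iff_of_neg (by norm_num)]
  have : (0 : ℝ) ≤ (1 / 2) ^ n := by positivity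
  linarith

theorem bilA_of_lv {α : ℝ} (h : LV α) : BilA α := by
  classical
  intro K ε hε
  obtain ⟨C, hC, H⟩ := h K ε hε
  refine ⟨1 + 4 * C, by positivity, fun N A S hN hA hS hc => ?_⟩
  have hN1 : (1 : ℝ) ≤ N := by exact_mod_cast hN
  have hN0 : (0 : ℝ) < N := by linarith
  obtain ⟨y, hy⟩ : ∃ y : ℕ → ℝ, y = fun t : ℕ => ‖∑ n ∈ A, (n : ℂ) ^ (-((t : ℂ) * Complex.I))‖ := ⟨_, rfl⟩
  have hy0 : ∀ t, 0 ≤ y t := fun t => by rw [hy]; exact norm_nonneg _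
  have hyN : ∀ t, y t ≤ N := fun t => by
    rw [hy]
    refine (norm_sum_le _ _).trans ?_
    have h1 : ∀ n ∈ A, ‖(n : ℂ) ^ (-((t : ℂ) * Complex.I))‖ = 1 := fun n hn =>
      norm_pow_one n (mem_Icc.1 (hA hn)).1 t
    rw [sum_congr rfl h1, sum_const, nsmul_eq_mul, mul_one]
    have h2 := Finset.card_le_card hA
    rw [Nat.card_Icc, Nat.add_sub_cancel] at h2
    exact_mod_cast h2
  obtain ⟨V, hV⟩ : ∃ V : ℝ, V = (N : ℝ) ^ (1 / 2 + ε) := ⟨_, rfl⟩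
  have hV1 : 1 ≤ V := by rw [hV]; exact Real.one_le_rpow hN1 (by positivity)
  have hV0 : 0 < V := by linarith
  have hcount : ∀ j : ℕ, ((S.filter fun t => 2 ^ j * V ≤ y t).card : ℝ) ≤
      C * (N : ℝ) ^ (2 + α + ε) / (2 ^ j * V) ^ 2 := by
    intro j
    have h2j : (1 : ℝ) ≤ 2 ^ j := one_le_pow₀ (by norm_num)
    refine lv_int H N (2 ^ j * V) A _ hN hA (by rw [← hV]; nlinarith) fun t ht => ?_
    have h1 := mem_filter.1 ht
    rw [hy] at h1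
    exact ⟨hS t h1.1, h1.2⟩
  have hdy : ∀ t ∈ S, y t ≤ V + 2 * ∑ j ∈ range N, 2 ^ j * V * (if 2 ^ j * V ≤ y t then 1 else 0) := by
    intro t _
    refine dyad (hy0 t) hV0.le N ?_
    have h1 : (N : ℝ) < 2 ^ N := by exact_mod_cast Nat.lt_two_pow_self
    have h2 := hyN t
    nlinarith
  have hsum : ∑ t ∈ S, y t ≤ (1 + 4 * C) * (N : ℝ) ^ (3 / 2 + α + ε) := by
    calc ∑ t ∈ S, y t ≤ ∑ t ∈ S, (V + 2 * ∑ j ∈ range N, 2 ^ j * V * (if 2 ^ j * V ≤ y t then 1 else 0)) :=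
          sum_le_sum hdy
      _ = S.card * V + 2 * ∑ j ∈ range N, 2 ^ j * V * ((S.filter fun t => 2 ^ j * V ≤ y t).card : ℝ) := by
          rw [sum_add_distrib, sum_const, nsmul_eq_mul, ← mul_sum, sum_comm]
          congr 2
          refine sum_congr rfl fun j _ => ?_
          rw [← mul_sum, sum_boole]
      _ ≤ S.card * V + 2 * ∑ j ∈ range N, 2 ^ j * V * (C * (N : ℝ) ^ (2 + α + ε) / (2 ^ j * V) ^ 2) := by
          gcongr with j _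
          exact hcount j
      _ = S.card * V + 2 * (C * (N : ℝ) ^ (2 + α + ε) / V) * ∑ j ∈ range N, (1 / 2 : ℝ) ^ j := by
          rw [mul_sum (range N) (fun j => (1 / 2 : ℝ) ^ j), mul_sum]
          congr 1
          refine sum_congr rfl fun j _ => ?_
          have : (2 : ℝ) ^ j ≠ 0 := by positivity
          rw [one_div, inv_pow]
          field_simp
      _ ≤ (N : ℝ) ^ (1 + α) * V + 2 * (C * (N : ℝ) ^ (2 + α + ε) / V) * 2 := by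
          refine add_le_add (mul_le_mul_of_nonneg_right hc hV0.le) ?_
          exact mul_le_mul_of_nonneg_left (geo_two N) (by positivity)
      _ ≤ _ := by
          have e1 : (N : ℝ) ^ (1 + α) * V = (N : ℝ) ^ (3 / 2 + α + ε) := by
            rw [hV, ← Real.rpow_add hN0]; congr 1; ring
          have e2 : C * (N : ℝ) ^ (2 + α + ε) / V = C * (N : ℝ) ^ (3 / 2 + α) := by
            rw [hV, mul_div_assoc, ← Real.rpow_sub hN0]
            congr 2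
            ring
          have h3 : (N : ℝ) ^ (3 / 2 + α) ≤ (N : ℝ) ^ (3 / 2 + α + ε) :=
            Real.rpow_le_rpow_of_exponent_le hN1 (by linarith)
          rw [e1, e2]
          nlinarith
  refine le_trans ?_ hsum
  rw [sum_comm]
  refine (norm_sum_le _ _).trans (sum_le_sum fun t _ => le_of_eq ?_)
  rw [hy]
  exact norm_conj_sum hA t

theorem lv_of_l1 {α : ℝ} (hα : 0 ≤ α) (h : L1 α) : LV α := by
  classical
  intro K ε hε
  obtain ⟨C, hC, H⟩ := h (K + 2 + ⌈α⌉₊) (ε / 4) (by positivity)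
  obtain ⟨C0, hC0, hlog⟩ := log_pow_le (ε / 4) (by positivity)
  obtain ⟨Q, hQ⟩ : ∃ Q : ℝ, Q = 48 * C * C0 := ⟨_, rfl⟩
  have hQ0 : 0 < Q := by rw [hQ]; positivity
  obtain ⟨N0, hN0def⟩ : ∃ N0 : ℝ, N0 = max ((2 * Q ^ 2) ^ (1 / ε)) 1 := ⟨_, rfl⟩
  have hN01 : 1 ≤ N0 := by rw [hN0def]; exact le_max_right _ _
  refine ⟨max (Q ^ 2) (N0 ^ K + 1), by positivity, fun N V a S hN ha hNV hS hsep => ?_⟩
  have hN1 : (1 : ℝ) ≤ N := by exact_mod_cast hN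
  have hNpos : (0 : ℝ) < N := by linarith
  have hV1 : 1 ≤ V := le_trans (Real.one_le_rpow hN1 (by positivity)) hNV
  have hV : 0 < V := by linarith
  have hV2 : 0 < V ^ 2 := by positivity
  rcases S.eq_empty_or_nonempty with h0 | h0
  · subst h0
    simp only [card_empty, CharP.cast_eq_zero]
    positivity
  have hDN : ∀ t : ℝ, ‖∑ n ∈ Finset.Icc 1 N, a n * (n : ℂ) ^ (-((t : ℝ) : ℂ) * Complex.I)‖ ≤ N := by
    intro t
    refine (norm_sum_le _ _).trans ?_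
    calc ∑ n ∈ Finset.Icc 1 N, ‖a n * (n : ℂ) ^ (-((t : ℝ) : ℂ) * Complex.I)‖ ≤ ∑ _n ∈ Finset.Icc 1 N, (1 : ℝ) := by
          refine sum_le_sum fun n hn => ?_
          have hn1 := (mem_Icc.1 hn).1
          have hn0 : (n : ℂ) ≠ 0 := by exact_mod_cast (by omega : n ≠ 0)
          rw [norm_mul, Complex.cpow_def_of_ne_zero hn0, ← Complex.natCast_log]
          have e : ((Real.log n : ℝ) : ℂ) * (-((t : ℝ) : ℂ) * Complex.I) = (((-(Real.log n * t) : ℝ)) : ℂ) * Complex.I := by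
            push_cast; ring
          rw [e, Complex.norm_exp_ofReal_mul_I, mul_one]
          exact ha n
      _ = N := by simp
  have hVN : V ≤ N := by
    obtain ⟨t₀, ht₀⟩ := h0
    have h1 := (hS t₀ ht₀).2.2
    have h2 := hDN t₀
    rw [neg_mul] at h2
    exact h1.trans h2
  have hVN2 : V ^ 2 ≤ (N : ℝ) ^ (2 + α + ε) := by
    calc V ^ 2 ≤ (N : ℝ) ^ 2 := pow_le_pow_left₀ hV.le hVN 2
      _ = (N : ℝ) ^ (2 : ℝ) := by rw [← Real.rpow_natCast]; norm_num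
      _ ≤ _ := Real.rpow_le_rpow_of_exponent_le hN1 (by linarith)
  have hq : 1 ≤ (N : ℝ) ^ (2 + α + ε) / V ^ 2 := by rwa [le_div_iff₀ hV2, one_mul]
  -- small `N`
  have hsmall : (N : ℝ) ≤ N0 → (S.card : ℝ) ≤ max (Q ^ 2) (N0 ^ K + 1) * (N : ℝ) ^ (2 + α + ε) / V ^ 2 := by
    intro hNN0
    have h6 := card_le (T := (N : ℝ) ^ K) (by positivity) (fun t ht => ⟨(hS t ht).1, (hS t ht).2.1⟩) hsep
    have h7 : N0 ^ K + 1 ≤ max (Q ^ 2) (N0 ^ K + 1) := le_max_right _ _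
    have h8 : (N : ℝ) ^ K ≤ N0 ^ K := pow_le_pow_left₀ hNpos.le hNN0 K
    have h9 : 0 < N0 ^ K := by positivity
    calc (S.card : ℝ) ≤ max (Q ^ 2) (N0 ^ K + 1) * 1 := by linarith
      _ ≤ max (Q ^ 2) (N0 ^ K + 1) * ((N : ℝ) ^ (2 + α + ε) / V ^ 2) := by gcongr
      _ = _ := by ring
  rcases Nat.eq_or_lt_of_le hN with hN' | hN2
  · refine hsmall ?_
    rw [← hN']
    simpa using hN01
  -- the critical size
  obtain ⟨m, hmdef⟩ : ∃ m : ℕ, m = ⌊(N : ℝ) ^ (1 + α)⌋₊ := ⟨_, rfl⟩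
  have hNα : 1 ≤ (N : ℝ) ^ (1 + α) := Real.one_le_rpow hN1 (by linarith)
  have hm : 1 ≤ m := by rw [hmdef]; exact Nat.le_floor (by exact_mod_cast hNα)
  have hmle : (m : ℝ) ≤ (N : ℝ) ^ (1 + α) := by rw [hmdef]; exact Nat.floor_le (by linarith)
  have hmge : (N : ℝ) ^ (1 + α) ≤ 2 * m := by
    have h1 := Nat.lt_floor_add_one ((N : ℝ) ^ (1 + α))
    rw [← hmdef] at h1
    have h2 : (1 : ℝ) ≤ m := by exact_mod_cast hm
    linarith
  have hm0 : (0 : ℝ) < m := by exact_mod_cast hm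
  -- sizes below the critical one
  have hampl : ∀ (R : ℕ) (S' : Finset ℕ), 1 ≤ R → R ≤ m → (∀ t ∈ S', t ≤ N ^ K) → S'.card ≤ R →
      ∑ n ∈ Icc 1 N, ‖sm S' n‖ ≤ 12 * C * √(R : ℝ) * (N : ℝ) ^ (1 + α / 2 + ε / 4) := by
    intro R S' hR1 hRm hS' hcR
    have hR0 : (0 : ℝ) < R := by exact_mod_cast hR1
    have hq1 : 1 ≤ (m : ℝ) / R := by
      rw [le_div_iff₀ hR0, one_mul]; exact_mod_cast hRm
    obtain ⟨κ, hκ1, hκ2⟩ := exists_nat_pow_near hq1 (show (1 : ℝ) < 2 by norm_num)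
    have hκm : 2 ^ κ * R ≤ m := by
      rw [le_div_iff₀ hR0] at hκ1
      exact_mod_cast hκ1
    have hκN : 2 ^ κ ≤ N ^ (1 + ⌈α⌉₊) := by
      have h1 : 2 ^ κ ≤ m := by nlinarith
      have h2 : (m : ℝ) ≤ (N : ℝ) ^ (1 + ⌈α⌉₊) := by
        refine hmle.trans ?_
        rw [← Real.rpow_natCast]
        refine Real.rpow_le_rpow_of_exponent_le hN1 ?_
        push_cast
        linarith [Nat.le_ceil α]
      have h3 : m ≤ N ^ (1 + ⌈α⌉₊) := by exact_mod_cast h2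
      exact h1.trans h3
    have hX : (N ^ K + 1) * 2 ^ κ ≤ N ^ (K + 2 + ⌈α⌉₊) := by
      have h1 : N ^ K + 1 ≤ N ^ (K + 1) := by
        have : 1 ≤ N ^ K := Nat.one_le_pow _ _ (by omega)
        rw [pow_succ]
        nlinarith
      calc (N ^ K + 1) * 2 ^ κ ≤ N ^ (K + 1) * N ^ (1 + ⌈α⌉₊) := Nat.mul_le_mul h1 hκN
        _ = N ^ (K + 2 + ⌈α⌉₊) := by rw [← pow_add]; congr 1; ring
    have h1 := amp (N := N) (k := κ) hS' (B := C * (N : ℝ) ^ (3 / 2 + α + ε / 4)) (fun S'' hS'' hc'' => by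
      refine H N S'' hN (fun t ht => (hS'' t ht).trans hX) ?_
      refine le_trans ?_ hmle
      have : S''.card ≤ m := hc''.trans ((Nat.mul_le_mul_left _ hcR).trans hκm)
      exact_mod_cast this)
    have hs0 : 0 < √((2 : ℝ) ^ κ) := Real.sqrt_pos.2 (by positivity)
    -- the lower bound for the number of translates
    obtain ⟨g, hg⟩ : ∃ g : ℝ, g = (N : ℝ) ^ ((1 + α) / 2) := ⟨_, rfl⟩
    have hg0 : 0 < g := by rw [hg]; exact Real.rpow_pos_of_pos hNpos _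
    have hgg : g * g = (N : ℝ) ^ (1 + α) := by
      rw [hg, ← Real.rpow_add hNpos]; congr 1; ring
    have hsR : √(R : ℝ) * √(R : ℝ) = R := Real.mul_self_sqrt hR0.le
    have hs2 : √((2 : ℝ) ^ κ) * √((2 : ℝ) ^ κ) = 2 ^ κ := Real.mul_self_sqrt (by positivity)
    have hsR0 : 0 < √(R : ℝ) := Real.sqrt_pos.2 hR0
    have h2 : g ≤ 2 * √((2 : ℝ) ^ κ) * √(R : ℝ) := by
      have h3 : (m : ℝ) ≤ 2 * 2 ^ κ * R := by
        rw [div_lt_iff₀ hR0, pow_succ] at hκ2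
        linarith
      have h4 : g * g ≤ (2 * √((2 : ℝ) ^ κ) * √(R : ℝ)) * (2 * √((2 : ℝ) ^ κ) * √(R : ℝ)) := by
        calc g * g = (N : ℝ) ^ (1 + α) := hgg
          _ ≤ 2 * (2 * 2 ^ κ * R) := by linarith
          _ = 4 * (√((2 : ℝ) ^ κ) * √((2 : ℝ) ^ κ)) * (√(R : ℝ) * √(R : ℝ)) := by rw [hsR, hs2]; ring
          _ = _ := by ring
      by_contra hcon
      push Not at hcon
      have h5 : 0 ≤ 2 * √((2 : ℝ) ^ κ) * √(R : ℝ) := by positivity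
      nlinarith
    have e : (N : ℝ) ^ (3 / 2 + α + ε / 4) = (N : ℝ) ^ (1 + α / 2 + ε / 4) * g := by
      rw [hg, ← Real.rpow_add hNpos]; congr 1; ring
    have hNp : 0 < (N : ℝ) ^ (1 + α / 2 + ε / 4) := Real.rpow_pos_of_pos hNpos _
    have h6 : √((2 : ℝ) ^ κ) * ∑ n ∈ Icc 1 N, ‖sm S' n‖ ≤
        √((2 : ℝ) ^ κ) * (12 * C * √(R : ℝ) * (N : ℝ) ^ (1 + α / 2 + ε / 4)) := by
      calc √((2 : ℝ) ^ κ) * ∑ n ∈ Icc 1 N, ‖sm S' n‖ ≤ 6 * (C * ((N : ℝ) ^ (1 + α / 2 + ε / 4) * g)) := by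
            rw [← e]; exact h1
        _ ≤ 6 * (C * ((N : ℝ) ^ (1 + α / 2 + ε / 4) * (2 * √((2 : ℝ) ^ κ) * √(R : ℝ)))) := by gcongr
        _ = _ := by ring
    exact le_of_mul_le_mul_left h6 hs0
  -- the dual inequality
  have hdual : ∀ S0 ⊆ S, 1 ≤ S0.card → S0.card ≤ m →
      (S0.card : ℝ) * V ^ 2 ≤ Q ^ 2 * (N : ℝ) ^ (2 + α + ε) := by
    intro S0 hS0 hc1 hcm
    have hR0 : (0 : ℝ) < S0.card := by exact_mod_cast hc1
    obtain ⟨b, hb, h1⟩ := dual (N := N) ha S0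
    have h2 : V * (S0.card : ℝ) ≤ ∑ t ∈ S0, ‖D N a t‖ := by
      rw [mul_comm, ← nsmul_eq_mul]
      exact card_nsmul_le_sum _ _ _ fun t ht => (hS t (hS0 ht)).2.2
    have h3 := real_of_int (S := S0) (B := 12 * C * √(S0.card : ℝ) * (N : ℝ) ^ (1 + α / 2 + ε / 4)) hN
      (fun t ht => (hS t (hS0 ht)).1) (fun t ht u hu => hsep t (hS0 ht) u (hS0 hu)) (fun S' hS' => by
        have h4 : S'.card ≤ S0.card := (Finset.card_le_card hS').trans card_image_le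
        refine hampl S0.card S' hc1 hcm (fun k hk => ?_) h4
        obtain ⟨t, ht, rfl⟩ := mem_image.1 (hS' hk)
        have h5 := Nat.floor_mono (hS t (hS0 ht)).2.1
        have h6 : ⌊(N : ℝ) ^ K⌋₊ = N ^ K := by
          rw [← Nat.cast_pow, Nat.floor_natCast]
        rwa [h6] at h5) b hb
    have h7 : 1 + Real.log N ≤ C0 * (N : ℝ) ^ (ε / 4) := by
      have h8 := hlog N hN1
      have h10 := Real.log_nonneg hN1
      nlinarith
    have hsR : √(S0.card : ℝ) * √(S0.card : ℝ) = S0.card := Real.mul_self_sqrt hR0.le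
    have hsR0 : 0 < √(S0.card : ℝ) := Real.sqrt_pos.2 hR0
    obtain ⟨g, hg⟩ : ∃ g : ℝ, g = (N : ℝ) ^ (1 + α / 2 + ε / 2) := ⟨_, rfl⟩
    have hg0 : 0 < g := by rw [hg]; exact Real.rpow_pos_of_pos hNpos _
    have e : (N : ℝ) ^ (ε / 4) * (N : ℝ) ^ (1 + α / 2 + ε / 4) = g := by
      rw [hg, ← Real.rpow_add hNpos]; congr 1; ring
    have hgg : g ^ 2 = (N : ℝ) ^ (2 + α + ε) := by
      rw [hg, ← Real.rpow_natCast, ← Real.rpow_mul hNpos.le]; congr 1; push_cast; ring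
    have h11 : V * (S0.card : ℝ) ≤ Q * g * √(S0.card : ℝ) := by
      calc V * (S0.card : ℝ) ≤ (1 + Real.log N) * (4 * (12 * C * √(S0.card : ℝ) * (N : ℝ) ^ (1 + α / 2 + ε / 4))) :=
            (h2.trans h1).trans h3
        _ ≤ (C0 * (N : ℝ) ^ (ε / 4)) * (4 * (12 * C * √(S0.card : ℝ) * (N : ℝ) ^ (1 + α / 2 + ε / 4))) := by gcongr
        _ = 48 * C * C0 * ((N : ℝ) ^ (ε / 4) * (N : ℝ) ^ (1 + α / 2 + ε / 4)) * √(S0.card : ℝ) := by ring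
        _ = _ := by rw [e, ← hQ]
    have h12 : V * √(S0.card : ℝ) ≤ Q * g := by
      have h13 : V * √(S0.card : ℝ) * √(S0.card : ℝ) ≤ Q * g * √(S0.card : ℝ) := by
        rw [mul_assoc, hsR]; exact h11
      exact le_of_mul_le_mul_right h13 hsR0
    have h14 : (V * √(S0.card : ℝ)) ^ 2 ≤ (Q * g) ^ 2 := pow_le_pow_left₀ (by positivity) h12 2
    rw [mul_pow, mul_pow, Real.sq_sqrt hR0.le, hgg] at h14
    linarith
  rcases le_total S.card m with hcm | hcm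
  · have h1 := hdual S subset_rfl h0.card_pos hcm
    have h2 : Q ^ 2 ≤ max (Q ^ 2) (N0 ^ K + 1) := le_max_left _ _
    rw [le_div_iff₀ hV2]
    refine h1.trans ?_
    gcongr
  · obtain ⟨S0, hS0, hc0⟩ := exists_subset_card_eq hcm
    have h1 := hdual S0 hS0 (by omega) hc0.le
    rw [hc0] at h1
    refine hsmall ?_
    have e1 : ((N : ℝ) ^ (1 / 2 + ε)) ^ 2 = (N : ℝ) ^ (1 + 2 * ε) := by
      rw [← Real.rpow_natCast, ← Real.rpow_mul hNpos.le]; congr 1; push_cast; ring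
    have h2 : (N : ℝ) ^ (1 + 2 * ε) ≤ V ^ 2 := by
      rw [← e1]
      exact pow_le_pow_left₀ (Real.rpow_nonneg hNpos.le _) hNV 2
    have h3 : (N : ℝ) ^ (1 + α) * (N : ℝ) ^ (1 + 2 * ε) ≤ 2 * (Q ^ 2 * (N : ℝ) ^ (2 + α + ε)) := by
      calc (N : ℝ) ^ (1 + α) * (N : ℝ) ^ (1 + 2 * ε) ≤ 2 * m * V ^ 2 := by gcongr
        _ ≤ _ := by linarith
    have e2 : (N : ℝ) ^ (1 + α) * (N : ℝ) ^ (1 + 2 * ε) = (N : ℝ) ^ ε * (N : ℝ) ^ (2 + α + ε) := by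
      rw [← Real.rpow_add hNpos, ← Real.rpow_add hNpos]; congr 1; ring
    rw [e2] at h3
    have hNp : 0 < (N : ℝ) ^ (2 + α + ε) := Real.rpow_pos_of_pos hNpos _
    have h4 : (N : ℝ) ^ ε ≤ 2 * Q ^ 2 := by
      refine le_of_mul_le_mul_right ?_ hNp
      linarith
    have h6 := Real.rpow_le_rpow (Real.rpow_nonneg hNpos.le _) h4 (show 0 ≤ 1 / ε by positivity)
    rw [← Real.rpow_mul hNpos.le] at h6
    have e3 : ε * (1 / ε) = 1 := by field_simp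
    rw [e3, Real.rpow_one] at h6
    rw [hN0def]
    exact h6.trans (le_max_left _ _)

theorem lv0_of_Q1 (h : Q1) : LV 0 := by
  intro K ε hε
  have hK : (0 : ℝ) < (K : ℝ) + 1 := by positivity
  obtain ⟨C, hC, H⟩ := h (ε / (K + 1)) (by positivity)
  refine ⟨C, hC, fun N V a S hN ha hNV hS hsep => ?_⟩
  have hN1 : (1 : ℝ) ≤ N := by exact_mod_cast hN
  have hN0 : (0 : ℝ) < N := by linarith
  have hV1 : 1 ≤ V := le_trans (Real.one_le_rpow hN1 (by positivity)) hNV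
  have hT : 1 ≤ (N : ℝ) ^ K := one_le_pow₀ hN1
  have hTe : ((N : ℝ) ^ K) ^ (ε / (K + 1)) ≤ (N : ℝ) ^ ε := by
    rw [← Real.rpow_natCast, ← Real.rpow_mul hN0.le]
    refine Real.rpow_le_rpow_of_exponent_le hN1 ?_
    rw [← mul_div_assoc, div_le_iff₀ hK]
    nlinarith
  have e1 : ((N : ℝ) ^ (1 / 2 + ε)) ^ 2 = (N : ℝ) ^ (1 + 2 * ε) := by
    rw [← Real.rpow_natCast, ← Real.rpow_mul hN0.le]; congr 1; push_cast; ring
  have h2 : (N : ℝ) ^ (1 + 2 * ε) ≤ V ^ 2 := by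
    rw [← e1]
    exact pow_le_pow_left₀ (Real.rpow_nonneg hN0.le _) hNV 2
  have h3 : (N : ℝ) * ((N : ℝ) ^ K) ^ (ε / (K + 1)) ≤ V ^ 2 := by
    refine le_trans ?_ h2
    calc (N : ℝ) * ((N : ℝ) ^ K) ^ (ε / (K + 1)) ≤ N * (N : ℝ) ^ ε := by gcongr
      _ = (N : ℝ) ^ (1 + ε) := by rw [Real.rpow_add hN0, Real.rpow_one]
      _ ≤ _ := Real.rpow_le_rpow_of_exponent_le hN1 (by linarith)
  have h4 := H N ((N : ℝ) ^ K) V a S hN hT (by linarith) ha h3 hS hsep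
  have hV2 : 0 < V ^ 2 := by positivity
  calc (S.card : ℝ) ≤ C * (N : ℝ) ^ 2 / V ^ 2 * ((N : ℝ) ^ K) ^ (ε / (K + 1)) := h4
    _ ≤ C * (N : ℝ) ^ 2 / V ^ 2 * (N : ℝ) ^ ε := by gcongr
    _ = C * ((N : ℝ) ^ 2 * (N : ℝ) ^ ε) / V ^ 2 := by ring
    _ = _ := by
        congr 2
        rw [add_zero, Real.rpow_add hN0]
        congr 1
        rw [← Real.rpow_natCast]
        norm_num

theorem Q1_of_lv0 (h : LV 0) : Q1 := by
  classical
  intro ε hε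
  obtain ⟨C1, hC1, H1⟩ := big ε hε
  obtain ⟨K, hK⟩ : ∃ K : ℕ, K = ⌈1 / ε⌉₊ := ⟨_, rfl⟩
  have hK1 : 1 ≤ K * ε := by
    have : 1 / ε ≤ K := by rw [hK]; exact Nat.le_ceil _
    rwa [div_le_iff₀ hε] at this
  obtain ⟨C2, hC2, H2⟩ := h K (ε / 2) (by positivity)
  refine ⟨max C1 C2, by positivity, fun N T V a S hN hT hV ha hNV hS hsep => ?_⟩
  have hN1 : (1 : ℝ) ≤ N := by exact_mod_cast hN
  have hNpos : (0 : ℝ) < N := by linarith
  have hTpos : 0 < T := by linarith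
  have hTe : 1 ≤ T ^ ε := Real.one_le_rpow hT hε.le
  have hV2 : 0 < V ^ 2 := by positivity
  rcases S.eq_empty_or_nonempty with h0 | h0
  · subst h0
    simp only [card_empty, CharP.cast_eq_zero]
    positivity
  have hDN : ∀ t : ℝ, ‖∑ n ∈ Finset.Icc 1 N, a n * (n : ℂ) ^ (-((t : ℝ) : ℂ) * Complex.I)‖ ≤ N := by
    intro t
    refine (norm_sum_le _ _).trans ?_
    calc ∑ n ∈ Finset.Icc 1 N, ‖a n * (n : ℂ) ^ (-((t : ℝ) : ℂ) * Complex.I)‖ ≤ ∑ _n ∈ Finset.Icc 1 N, (1 : ℝ) := by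
          refine sum_le_sum fun n hn => ?_
          have hn1 := (mem_Icc.1 hn).1
          have hn0 : (n : ℂ) ≠ 0 := by exact_mod_cast (by omega : n ≠ 0)
          rw [norm_mul, Complex.cpow_def_of_ne_zero hn0, ← Complex.natCast_log]
          have e : ((Real.log n : ℝ) : ℂ) * (-((t : ℝ) : ℂ) * Complex.I) = (((-(Real.log n * t) : ℝ)) : ℂ) * Complex.I := by
            push_cast; ring
          rw [e, Complex.norm_exp_ofReal_mul_I, mul_one]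
          exact ha n
      _ = N := by simp
  have hVN : V ≤ N := by
    obtain ⟨t₀, ht₀⟩ := h0
    have h1 := (hS t₀ ht₀).2.2
    have h2 := hDN t₀
    rw [neg_mul] at h2
    exact h1.trans h2
  rcases le_total T N with hTN | hTN
  · have h1 := H1 N T V a S hN hT hV ha hTN hS hsep
    refine h1.trans ?_
    have h2 : C1 ≤ max C1 C2 := le_max_left _ _
    gcongr
  · have hNe : (N : ℝ) ^ ε ≤ T ^ ε := Real.rpow_le_rpow hNpos.le hTN hε.le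
    rcases le_or_gt T ((N : ℝ) ^ K) with hTK | hTK
    · have h3 : (N : ℝ) ^ (1 / 2 + ε / 2) ≤ V := by
        have e1 : ((N : ℝ) ^ (1 / 2 + ε / 2)) ^ 2 = (N : ℝ) * (N : ℝ) ^ ε := by
          rw [← Real.rpow_natCast, ← Real.rpow_mul hNpos.le]
          have : (N : ℝ) * (N : ℝ) ^ ε = (N : ℝ) ^ (1 : ℝ) * (N : ℝ) ^ ε := by rw [Real.rpow_one]
          rw [this, ← Real.rpow_add hNpos]
          congr 1; push_cast; ring
        refine le_of_sq_le_sq ?_ hV.le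
        rw [e1]
        refine le_trans ?_ hNV
        gcongr
      have h4 := H2 N V a S hN ha h3 (fun t ht => ⟨(hS t ht).1, (hS t ht).2.1.trans hTK, (hS t ht).2.2⟩) hsep
      have h5 : (N : ℝ) ^ (2 + 0 + ε / 2) ≤ (N : ℝ) ^ 2 * T ^ ε := by
        calc (N : ℝ) ^ (2 + 0 + ε / 2) ≤ (N : ℝ) ^ (2 + ε) :=
              Real.rpow_le_rpow_of_exponent_le hN1 (by linarith)
          _ = (N : ℝ) ^ 2 * (N : ℝ) ^ ε := by
              rw [Real.rpow_add hNpos]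
              congr 1
              rw [← Real.rpow_natCast]
              norm_num
          _ ≤ _ := by gcongr
      have h6 : C2 ≤ max C1 C2 := le_max_right _ _
      calc (S.card : ℝ) ≤ C2 * (N : ℝ) ^ (2 + 0 + ε / 2) / V ^ 2 := h4
        _ ≤ max C1 C2 * ((N : ℝ) ^ 2 * T ^ ε) / V ^ 2 := by gcongr
        _ = _ := by ring
    · exfalso
      have h1 : ((N : ℝ) ^ K) ^ ε < T ^ ε := Real.rpow_lt_rpow (by positivity) hTK hε
      have h2 : (N : ℝ) ≤ ((N : ℝ) ^ K) ^ ε := by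
        rw [← Real.rpow_natCast, ← Real.rpow_mul hNpos.le]
        calc (N : ℝ) = (N : ℝ) ^ (1 : ℝ) := (Real.rpow_one _).symm
          _ ≤ _ := Real.rpow_le_rpow_of_exponent_le hN1 hK1
      have h3 : V ^ 2 ≤ (N : ℝ) ^ 2 := pow_le_pow_left₀ hV.le hVN 2
      nlinarith

theorem allA {α : ℝ} (hα : 0 ≤ α) : (End α ↔ LV α) ∧ (BilA α ↔ LV α) :=
  ⟨⟨fun h => lv_of_l1 hα (l1_of_end hα h), end_of_lv⟩,
    ⟨fun h => lv_of_l1 hα (l1_of_bilA h), bilA_of_lv⟩⟩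

theorem Q1_iff : Q1 ↔ LV 0 := ⟨lv0_of_Q1, Q1_of_lv0⟩

end Pool.Agent.V7H83.MC
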