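import Mathlib

/-!
# Removing the coefficients from sums of absolute values of bilinear sums
-/

set_option autoImplicit false

open Finset MeasureTheory

namespace Pool.Agent.V7H83.MC

variable {ι κ : Type*}

/-- extreme points: coefficients in `[0,1]` -/
theorem ext (I : Finset κ) (u : ι → κ → ℂ) (b : ι → ℝ) (S : Finset ι) (hb : ∀ t ∈ S, 0 ≤ b t ∧ b t ≤ 1) :
    ∀ w : κ → ℂ, ∃ S' ⊆ S, ∑ n ∈ I, ‖w n + ∑ t ∈ S, (b t : ℂ) * u t n‖ ≤ ∑ n ∈ I, ‖w n + ∑ t ∈ S', u t n‖ := by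
  classical
  induction S using Finset.induction_on with
  | empty => intro w; exact ⟨∅, subset_rfl, by simp⟩
  | insert t₀ S ht₀ ih =>
    intro w
    have ih' := ih fun t ht => hb t (mem_insert_of_mem ht)
    obtain ⟨S1, hS1, h1⟩ := ih' w
    obtain ⟨S2, hS2, h2⟩ := ih' fun n => w n + u t₀ n
    have hb0 := hb t₀ (mem_insert_self _ _)
    have key : ∑ n ∈ I, ‖w n + ∑ t ∈ insert t₀ S, (b t : ℂ) * u t n‖ ≤
        (1 - b t₀) * (∑ n ∈ I, ‖w n + ∑ t ∈ S, (b t : ℂ) * u t n‖) +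
          b t₀ * ∑ n ∈ I, ‖(w n + u t₀ n) + ∑ t ∈ S, (b t : ℂ) * u t n‖ := by
      rw [mul_sum, mul_sum, ← sum_add_distrib]
      refine sum_le_sum fun n _ => ?_
      rw [sum_insert ht₀]
      have e : w n + ((b t₀ : ℂ) * u t₀ n + ∑ t ∈ S, (b t : ℂ) * u t n) =
          ((1 - b t₀ : ℝ) : ℂ) * (w n + ∑ t ∈ S, (b t : ℂ) * u t n) +
            (b t₀ : ℂ) * ((w n + u t₀ n) + ∑ t ∈ S, (b t : ℂ) * u t n) := by
        push_cast; ring
      rw [e]
      refine (norm_add_le _ _).trans (le_of_eq ?_)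
      rw [norm_mul, norm_mul, Complex.norm_real, Complex.norm_real,
        Real.norm_of_nonneg (by linarith [hb0.2]), Real.norm_of_nonneg hb0.1]
    by_cases hcmp : (∑ n ∈ I, ‖w n + ∑ t ∈ S1, u t n‖) ≤ ∑ n ∈ I, ‖(w n + u t₀ n) + ∑ t ∈ S2, u t n‖
    · refine ⟨insert t₀ S2, insert_subset_insert _ hS2, ?_⟩
      have e : ∑ n ∈ I, ‖w n + ∑ t ∈ insert t₀ S2, u t n‖ = ∑ n ∈ I, ‖(w n + u t₀ n) + ∑ t ∈ S2, u t n‖ := by
        refine sum_congr rfl fun n _ => ?_
        rw [sum_insert (fun h => ht₀ (hS2 h)), add_assoc]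
      rw [e]
      have h3 : (1 - b t₀) * (∑ n ∈ I, ‖w n + ∑ t ∈ S, (b t : ℂ) * u t n‖) ≤
          (1 - b t₀) * ∑ n ∈ I, ‖(w n + u t₀ n) + ∑ t ∈ S2, u t n‖ :=
        mul_le_mul_of_nonneg_left (h1.trans hcmp) (by linarith [hb0.2])
      have h4 : b t₀ * (∑ n ∈ I, ‖(w n + u t₀ n) + ∑ t ∈ S, (b t : ℂ) * u t n‖) ≤
          b t₀ * ∑ n ∈ I, ‖(w n + u t₀ n) + ∑ t ∈ S2, u t n‖ :=
        mul_le_mul_of_nonneg_left h2 hb0.1
      linarith
    · push Not at hcmp
      refine ⟨S1, hS1.trans (subset_insert _ _), ?_⟩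
      have h3 : (1 - b t₀) * (∑ n ∈ I, ‖w n + ∑ t ∈ S, (b t : ℂ) * u t n‖) ≤
          (1 - b t₀) * ∑ n ∈ I, ‖w n + ∑ t ∈ S1, u t n‖ :=
        mul_le_mul_of_nonneg_left h1 (by linarith [hb0.2])
      have h4 : b t₀ * (∑ n ∈ I, ‖(w n + u t₀ n) + ∑ t ∈ S, (b t : ℂ) * u t n‖) ≤
          b t₀ * ∑ n ∈ I, ‖w n + ∑ t ∈ S1, u t n‖ :=
        mul_le_mul_of_nonneg_left (h2.trans hcmp.le) hb0.1
      linarith

/-- real coefficients in `[0,1]` -/
theorem pos_coef (I : Finset κ) (u : ι → κ → ℂ) (b : ι → ℝ) (S : Finset ι) (hb : ∀ t ∈ S, 0 ≤ b t ∧ b t ≤ 1)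
    {B : ℝ} (hB : ∀ S' ⊆ S, ∑ n ∈ I, ‖∑ t ∈ S', u t n‖ ≤ B) :
    ∑ n ∈ I, ‖∑ t ∈ S, (b t : ℂ) * u t n‖ ≤ B := by
  obtain ⟨S', hS', h⟩ := ext I u b S hb fun _ => 0
  simp only [zero_add] at h
  exact h.trans (hB S' hS')

/-- complex coefficients -/
theorem cplx_coef (I : Finset κ) (u : ι → κ → ℂ) (b : ι → ℂ) (S : Finset ι) (hb : ∀ t ∈ S, ‖b t‖ ≤ 1)
    {B : ℝ} (hB : ∀ S' ⊆ S, ∑ n ∈ I, ‖∑ t ∈ S', u t n‖ ≤ B) :
    ∑ n ∈ I, ‖∑ t ∈ S, b t * u t n‖ ≤ 4 * B := by
  have hre : ∀ t ∈ S, |(b t).re| ≤ 1 := fun t ht => (Complex.abs_re_le_norm _).trans (hb t ht)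
  have him : ∀ t ∈ S, |(b t).im| ≤ 1 := fun t ht => (Complex.abs_im_le_norm _).trans (hb t ht)
  have h1 := pos_coef I u (fun t => max (b t).re 0) S (fun t ht => ⟨le_max_right _ _,
    max_le ((le_abs_self _).trans (hre t ht)) zero_le_one⟩) hB
  have h2 := pos_coef I u (fun t => max (-(b t).re) 0) S (fun t ht => ⟨le_max_right _ _,
    max_le ((neg_le_abs _).trans (hre t ht)) zero_le_one⟩) hB
  have h3 := pos_coef I u (fun t => max (b t).im 0) S (fun t ht => ⟨le_max_right _ _,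
    max_le ((le_abs_self _).trans (him t ht)) zero_le_one⟩) hB
  have h4 := pos_coef I u (fun t => max (-(b t).im) 0) S (fun t ht => ⟨le_max_right _ _,
    max_le ((neg_le_abs _).trans (him t ht)) zero_le_one⟩) hB
  have hmax : ∀ x : ℝ, max x 0 - max (-x) 0 = x := fun x => by
    rcases le_total 0 x with h | h
    · rw [max_eq_left h, max_eq_right (by linarith)]; ring
    · rw [max_eq_right h, max_eq_left (by linarith)]; ring
  have hdec : ∀ t, b t = (((max (b t).re 0 : ℝ) : ℂ) - ((max (-(b t).re) 0 : ℝ) : ℂ)) +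
      (((max (b t).im 0 : ℝ) : ℂ) - ((max (-(b t).im) 0 : ℝ) : ℂ)) * Complex.I := fun t => by
    rw [← Complex.ofReal_sub, ← Complex.ofReal_sub, hmax, hmax, Complex.re_add_im]
  have key : ∀ n, ‖∑ t ∈ S, b t * u t n‖ ≤ ‖∑ t ∈ S, ((max (b t).re 0 : ℝ) : ℂ) * u t n‖ +
      ‖∑ t ∈ S, ((max (-(b t).re) 0 : ℝ) : ℂ) * u t n‖ + ‖∑ t ∈ S, ((max (b t).im 0 : ℝ) : ℂ) * u t n‖ +
      ‖∑ t ∈ S, ((max (-(b t).im) 0 : ℝ) : ℂ) * u t n‖ := by
    intro n
    have e : ∑ t ∈ S, b t * u t n = (∑ t ∈ S, ((max (b t).re 0 : ℝ) : ℂ) * u t n) -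
        (∑ t ∈ S, ((max (-(b t).re) 0 : ℝ) : ℂ) * u t n) + ((∑ t ∈ S, ((max (b t).im 0 : ℝ) : ℂ) * u t n) -
        (∑ t ∈ S, ((max (-(b t).im) 0 : ℝ) : ℂ) * u t n)) * Complex.I := by
      rw [← sum_sub_distrib, ← sum_sub_distrib, sum_mul, ← sum_add_distrib]
      refine sum_congr rfl fun t _ => ?_
      conv_lhs => rw [hdec t]
      ring
    rw [e]
    refine (norm_add_le _ _).trans ?_
    rw [norm_mul, Complex.norm_I, mul_one]
    have h5 := norm_sub_le (∑ t ∈ S, ((max (b t).re 0 : ℝ) : ℂ) * u t n)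
      (∑ t ∈ S, ((max (-(b t).re) 0 : ℝ) : ℂ) * u t n)
    have h6 := norm_sub_le (∑ t ∈ S, ((max (b t).im 0 : ℝ) : ℂ) * u t n)
      (∑ t ∈ S, ((max (-(b t).im) 0 : ℝ) : ℂ) * u t n)
    linarith
  refine (sum_le_sum fun n _ => key n).trans ?_
  rw [sum_add_distrib, sum_add_distrib, sum_add_distrib]
  linarith

/-- twisting by `e^{i θ_t λ_n}`, `θ_t ∈ [0,1]` (partial summation) -/
theorem abel (I : Finset κ) (u : ι → κ → ℂ) (b : ι → ℂ) (S : Finset ι) (hb : ∀ t ∈ S, ‖b t‖ ≤ 1)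
    (θ : ι → ℝ) (hθ : ∀ t ∈ S, 0 ≤ θ t ∧ θ t ≤ 1) (lam : κ → ℝ) {L : ℝ} (hL : 0 ≤ L)
    (hlam : ∀ n ∈ I, 0 ≤ lam n ∧ lam n ≤ L) {B : ℝ}
    (hB : ∀ b : ι → ℂ, (∀ t ∈ S, ‖b t‖ ≤ 1) → ∑ n ∈ I, ‖∑ t ∈ S, b t * u t n‖ ≤ B) :
    ∑ n ∈ I, ‖∑ t ∈ S, b t * (u t n * Complex.exp (((θ t * lam n : ℝ) : ℂ) * Complex.I))‖ ≤ (1 + L) * B := by
  classical
  -- the step functions
  set ch : ι → ℝ → ℂ := fun t x => (Set.Ioc (0 : ℝ) (θ t)).indicator (fun _ => (1 : ℂ)) x with hch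
  have hchn : ∀ t x, ‖ch t x‖ ≤ 1 := fun t x => by
    rw [hch]
    simp only
    by_cases h : x ∈ Set.Ioc (0 : ℝ) (θ t)
    · rw [Set.indicator_of_mem h, norm_one]
    · rw [Set.indicator_of_notMem h, norm_zero]; exact zero_le_one
  have hchm : ∀ t, Measurable (ch t) := fun t => measurable_const.indicator measurableSet_Ioc
  have hexp : ∀ t ∈ S, ∀ n, Complex.exp (((θ t * lam n : ℝ) : ℂ) * Complex.I) =
      1 + ∫ x in Set.Ioc (0 : ℝ) 1, ((lam n : ℂ) * Complex.I * Complex.exp (((x * lam n : ℝ) : ℂ) * Complex.I)) * ch t x := by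
    intro t ht n
    have hsub : Set.Ioc (0 : ℝ) (θ t) ⊆ Set.Ioc (0 : ℝ) 1 := fun x hx => ⟨hx.1, hx.2.trans (hθ t ht).2⟩
    have h1 : ∫ x in Set.Ioc (0 : ℝ) 1, ((lam n : ℂ) * Complex.I * Complex.exp (((x * lam n : ℝ) : ℂ) * Complex.I)) * ch t x =
        ∫ x in Set.Ioc (0 : ℝ) (θ t), (lam n : ℂ) * Complex.I * Complex.exp (((x * lam n : ℝ) : ℂ) * Complex.I) := by
      have e : (fun x => ((lam n : ℂ) * Complex.I * Complex.exp (((x * lam n : ℝ) : ℂ) * Complex.I)) * ch t x) =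
          (Set.Ioc (0 : ℝ) (θ t)).indicator
            (fun x => (lam n : ℂ) * Complex.I * Complex.exp (((x * lam n : ℝ) : ℂ) * Complex.I)) := by
        funext x
        rw [hch]
        simp only
        by_cases h : x ∈ Set.Ioc (0 : ℝ) (θ t)
        · rw [Set.indicator_of_mem h, Set.indicator_of_mem h, mul_one]
        · rw [Set.indicator_of_notMem h, Set.indicator_of_notMem h, mul_zero]
      rw [e, setIntegral_indicator measurableSet_Ioc, Set.inter_eq_right.2 hsub]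
    rw [h1, ← intervalIntegral.integral_of_le (hθ t ht).1]
    have h2 : ∀ x ∈ Set.uIcc 0 (θ t), HasDerivAt (fun x : ℝ => Complex.exp (((x * lam n : ℝ) : ℂ) * Complex.I))
        ((lam n : ℂ) * Complex.I * Complex.exp (((x * lam n : ℝ) : ℂ) * Complex.I)) x := by
      intro x _
      have h3 : HasDerivAt (fun x : ℝ => ((x * lam n : ℝ) : ℂ) * Complex.I) ((lam n : ℂ) * Complex.I) x := by
        have h4 : HasDerivAt (fun x : ℝ => x * lam n) (lam n) x := by
          simpa using (hasDerivAt_id x).mul_const (lam n)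
        exact h4.ofReal_comp.mul_const Complex.I
      have h5 := h3.cexp
      rw [mul_comm] at h5
      exact h5
    rw [intervalIntegral.integral_eq_sub_of_hasDerivAt h2 (Continuous.intervalIntegrable (by fun_prop) _ _)]
    simp
  have hint : ∀ n, ∀ t, IntegrableOn (fun x => ((lam n : ℂ) * Complex.I *
      Complex.exp (((x * lam n : ℝ) : ℂ) * Complex.I)) * ch t x) (Set.Ioc (0 : ℝ) 1) := by
    intro n t
    refine Integrable.of_bound (C := |lam n|) ?_ ?_
    · refine Measurable.aestronglyMeasurable (Measurable.mul (Continuous.measurable (by fun_prop)) (hchm t))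
    · refine Filter.Eventually.of_forall fun x => ?_
      rw [norm_mul, norm_mul, norm_mul, Complex.norm_real, Complex.norm_I, Complex.norm_exp_ofReal_mul_I,
        Real.norm_eq_abs]
      have := hchn t x
      have h0 := abs_nonneg (lam n)
      nlinarith
  have hstep : ∀ n ∈ I, ‖∑ t ∈ S, b t * (u t n * Complex.exp (((θ t * lam n : ℝ) : ℂ) * Complex.I))‖ ≤
      ‖∑ t ∈ S, b t * u t n‖ + L * ∫ x in Set.Ioc (0 : ℝ) 1, ‖∑ t ∈ S, (b t * ch t x) * u t n‖ := by
    intro n hn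
    have e : ∑ t ∈ S, b t * (u t n * Complex.exp (((θ t * lam n : ℝ) : ℂ) * Complex.I)) =
        ∑ t ∈ S, b t * u t n + ∫ x in Set.Ioc (0 : ℝ) 1, ((lam n : ℂ) * Complex.I *
          Complex.exp (((x * lam n : ℝ) : ℂ) * Complex.I)) * ∑ t ∈ S, (b t * ch t x) * u t n := by
      have e1 : (fun x => ((lam n : ℂ) * Complex.I * Complex.exp (((x * lam n : ℝ) : ℂ) * Complex.I)) *
          ∑ t ∈ S, (b t * ch t x) * u t n) = fun x => ∑ t ∈ S, (b t * u t n) * (((lam n : ℂ) * Complex.I *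
          Complex.exp (((x * lam n : ℝ) : ℂ) * Complex.I)) * ch t x) := by
        funext x
        rw [mul_sum]
        exact sum_congr rfl fun t _ => by ring
      rw [e1, integral_finset_sum _ fun t _ => (hint n t).const_mul _, ← sum_add_distrib]
      refine sum_congr rfl fun t ht => ?_
      rw [hexp t ht n, integral_const_mul]
      ring
    rw [e]
    refine (norm_add_le _ _).trans (add_le_add le_rfl ?_)
    refine (norm_integral_le_integral_norm _).trans ?_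
    rw [← integral_const_mul]
    have hmeas : Measurable fun x => ∑ t ∈ S, (b t * ch t x) * u t n :=
      Finset.measurable_sum _ fun t _ => ((hchm t).const_mul _).mul_const _
    have hbd : ∀ x, ‖∑ t ∈ S, (b t * ch t x) * u t n‖ ≤ ∑ t ∈ S, ‖u t n‖ := fun x => by
      refine (norm_sum_le _ _).trans (sum_le_sum fun t ht => ?_)
      rw [norm_mul, norm_mul]
      have h1 := hb t ht
      have h2 := hchn t x
      have h3 : ‖b t‖ * ‖ch t x‖ ≤ 1 := by nlinarith [norm_nonneg (b t), norm_nonneg (ch t x)]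
      calc ‖b t‖ * ‖ch t x‖ * ‖u t n‖ ≤ 1 * ‖u t n‖ := by gcongr
        _ = _ := one_mul _
    refine integral_mono_of_nonneg (Filter.Eventually.of_forall fun x => norm_nonneg _) ?_
      (Filter.Eventually.of_forall fun x => ?_)
    · refine Integrable.const_mul ?_ _
      refine Integrable.of_bound (C := ∑ t ∈ S, ‖u t n‖) hmeas.norm.aestronglyMeasurable
        (Filter.Eventually.of_forall fun x => ?_)
      rw [norm_norm]
      exact hbd x
    · simp only
      rw [norm_mul, norm_mul, norm_mul, Complex.norm_real, Complex.norm_I, Complex.norm_exp_ofReal_mul_I,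
        Real.norm_of_nonneg (hlam n hn).1, mul_one, mul_one]
      exact mul_le_mul_of_nonneg_right (hlam n hn).2 (norm_nonneg _)
  refine (sum_le_sum hstep).trans ?_
  rw [sum_add_distrib, ← mul_sum]
  have hsumint : ∑ n ∈ I, ∫ x in Set.Ioc (0 : ℝ) 1, ‖∑ t ∈ S, (b t * ch t x) * u t n‖ ≤ B := by
    rw [← integral_finset_sum]
    · have h1 : ∫ x in Set.Ioc (0 : ℝ) 1, ∑ n ∈ I, ‖∑ t ∈ S, (b t * ch t x) * u t n‖ ≤
          ∫ _x in Set.Ioc (0 : ℝ) 1, B := by
        refine integral_mono_of_nonneg (Filter.Eventually.of_forall fun x => sum_nonneg fun n _ => norm_nonneg _)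
          (integrable_const _) (Filter.Eventually.of_forall fun x => ?_)
        refine hB (fun t => b t * ch t x) fun t ht => ?_
        rw [norm_mul]
        have h1 := hb t ht
        have h2 := hchn t x
        nlinarith [norm_nonneg (b t), norm_nonneg (ch t x)]
      refine h1.trans (le_of_eq ?_)
      simp
    · intro n _
      have hmeas : Measurable fun x => ∑ t ∈ S, (b t * ch t x) * u t n :=
        Finset.measurable_sum _ fun t _ => ((hchm t).const_mul _).mul_const _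
      refine Integrable.of_bound (C := ∑ t ∈ S, ‖u t n‖) hmeas.norm.aestronglyMeasurable
        (Filter.Eventually.of_forall fun x => ?_)
      rw [norm_norm]
      refine (norm_sum_le _ _).trans (sum_le_sum fun t ht => ?_)
      rw [norm_mul, norm_mul]
      have h1 := hb t ht
      have h2 := hchn t x
      have h3 : ‖b t‖ * ‖ch t x‖ ≤ 1 := by nlinarith [norm_nonneg (b t), norm_nonneg (ch t x)]
      calc ‖b t‖ * ‖ch t x‖ * ‖u t n‖ ≤ 1 * ‖u t n‖ := by gcongr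
        _ = _ := one_mul _
  have h2 := hB b hb
  nlinarith

/-- a sum of absolute values is a sum over a subset, up to a factor -/
theorem abs_le_subset (I : Finset κ) (z : κ → ℂ) {B : ℝ} (hB : ∀ A ⊆ I, ‖∑ n ∈ A, z n‖ ≤ B) :
    ∑ n ∈ I, ‖z n‖ ≤ 4 * B := by
  classical
  have hreal : ∀ f : κ → ℝ, (∀ A ⊆ I, |∑ n ∈ A, f n| ≤ B) → ∑ n ∈ I, |f n| ≤ 2 * B := by
    intro f hf
    have h1 : ∑ n ∈ I, |f n| = ∑ n ∈ I.filter (fun n => 0 ≤ f n), f n -
        ∑ n ∈ I.filter (fun n => ¬ 0 ≤ f n), f n := by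
      rw [← sum_filter_add_sum_filter_not I (fun n => 0 ≤ f n) (fun n => |f n|), sub_eq_add_neg,
        ← sum_neg_distrib]
      congr 1
      · exact sum_congr rfl fun n hn => abs_of_nonneg (mem_filter.1 hn).2
      · refine sum_congr rfl fun n hn => abs_of_neg ?_
        have := (mem_filter.1 hn).2
        push Not at this
        exact this
    rw [h1]
    have h2 := hf _ (filter_subset (fun n => 0 ≤ f n) I)
    have h3 := hf _ (filter_subset (fun n => ¬ 0 ≤ f n) I)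
    rw [abs_le] at h2 h3
    linarith [h2.2, h3.1]
  have h1 := hreal (fun n => (z n).re) fun A hA => by
    rw [← Complex.re_sum]
    exact (Complex.abs_re_le_norm _).trans (hB A hA)
  have h2 := hreal (fun n => (z n).im) fun A hA => by
    rw [← Complex.im_sum]
    exact (Complex.abs_im_le_norm _).trans (hB A hA)
  have h3 : ∑ n ∈ I, ‖z n‖ ≤ ∑ n ∈ I, (|(z n).re| + |(z n).im|) :=
    sum_le_sum fun n _ => Complex.norm_le_abs_re_add_abs_im _
  rw [sum_add_distrib] at h3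
  linarith

/-- dyadic decomposition -/
lemma dyad {y V : ℝ} (hy : 0 ≤ y) (hV : 0 ≤ V) (J : ℕ) (h : y < 2 ^ J * V) :
    y ≤ V + 2 * ∑ j ∈ range J, 2 ^ j * V * (if 2 ^ j * V ≤ y then 1 else 0) := by
  induction J with
  | zero =>
    simp only [pow_zero, one_mul] at h
    simp
    linarith
  | succ J ih =>
    rw [sum_range_succ]
    have h0 : 0 ≤ 2 ^ J * V * (if 2 ^ J * V ≤ y then (1 : ℝ) else 0) := by
      split_ifs <;> positivity
    rcases lt_or_ge y (2 ^ J * V) with h1 | h1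
    · have := ih h1
      linarith
    · have h2 : 0 ≤ ∑ j ∈ range J, 2 ^ j * V * (if 2 ^ j * V ≤ y then (1 : ℝ) else 0) :=
        sum_nonneg fun j _ => by split_ifs <;> positivity
      rw [if_pos h1, mul_one]
      rw [pow_succ] at h
      linarith

end Pool.Agent.V7H83.MC
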