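import Pool.Agent.V7H83.MC.A
import Pool.Agent.W170.MV.Final
import Pool.Agent.TH181.LV.B

/-!
# Large values of Dirichlet polynomials: the range `N ≥ T`, and duality
-/

set_option autoImplicit false

open Finset

namespace Pool.Agent.V7H83.MC

/-- the Dirichlet polynomial -/
noncomputable def D (N : ℕ) (a : ℕ → ℂ) (t : ℝ) : ℂ :=
  ∑ n ∈ Icc 1 N, a n * (n : ℂ) ^ (-((t : ℂ) * Complex.I))

lemma floor_inj {S : Finset ℝ} (h0 : ∀ t ∈ S, 0 ≤ t) (hsep : ∀ t ∈ S, ∀ u ∈ S, t ≠ u → 1 ≤ |t - u|) :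
    Set.InjOn (fun t : ℝ => ⌊t⌋₊) S := by
  intro t ht u hu htu
  by_contra hne
  have h1 := hsep t ht u hu hne
  have h2 := Nat.floor_le (h0 t ht)
  have h3 := Nat.floor_le (h0 u hu)
  have h4 := Nat.lt_floor_add_one t
  have h5 := Nat.lt_floor_add_one u
  simp only at htu
  rw [htu] at h2 h4
  have h6 : |t - u| < 1 := abs_lt.2 ⟨by linarith, by linarith⟩
  linarith

lemma card_le {S : Finset ℝ} {T : ℝ} (hT : 0 ≤ T) (h0 : ∀ t ∈ S, 0 ≤ t ∧ t ≤ T)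
    (hsep : ∀ t ∈ S, ∀ u ∈ S, t ≠ u → 1 ≤ |t - u|) : (S.card : ℝ) ≤ T + 1 := by
  have h1 : (S.image (fun t : ℝ => ⌊t⌋₊)).card = S.card :=
    card_image_of_injOn (floor_inj (fun t ht => (h0 t ht).1) hsep)
  have h2 : S.image (fun t : ℝ => ⌊t⌋₊) ⊆ range (⌊T⌋₊ + 1) := by
    intro k hk
    obtain ⟨t, ht, rfl⟩ := mem_image.1 hk
    rw [mem_range]
    have := Nat.floor_mono (h0 t ht).2
    omega
  have h3 := Finset.card_le_card h2
  rw [h1, card_range] at h3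
  have h4 : (S.card : ℝ) ≤ ⌊T⌋₊ + 1 := by exact_mod_cast h3
  linarith [Nat.floor_le hT]

lemma log_pow_le (ε : ℝ) (hε : 0 < ε) : ∃ C : ℝ, 1 ≤ C ∧ ∀ T : ℝ, 1 ≤ T → (1 + Real.log T) ^ 2 ≤ C * T ^ ε := by
  refine ⟨(1 + 2 / ε) ^ 2, ?_, fun T hT => ?_⟩
  · have : 0 < 2 / ε := by positivity
    nlinarith
  have hT0 : 0 < T := by linarith
  have h1 : Real.log T ≤ T ^ (ε / 2) / (ε / 2) := Real.log_le_rpow_div hT0.le (by positivity)
  have h2 : 1 ≤ T ^ (ε / 2) := Real.one_le_rpow hT (by positivity)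
  have h0 := Real.log_nonneg hT
  have h3 : 1 + Real.log T ≤ (1 + 2 / ε) * T ^ (ε / 2) := by
    have e : T ^ (ε / 2) / (ε / 2) = 2 / ε * T ^ (ε / 2) := by field_simp
    rw [e] at h1
    linarith
  have e3 : T ^ ε = (T ^ (ε / 2)) ^ 2 := by
    rw [← Real.rpow_natCast, ← Real.rpow_mul hT0.le]
    congr 1
    push_cast
    ring
  rw [e3, ← mul_pow]
  exact pow_le_pow_left₀ (by linarith) h3 2

/-- the conjecture holds for `N ≥ T` -/
theorem big (ε : ℝ) (hε : 0 < ε) : ∃ C : ℝ, 0 < C ∧ ∀ (N : ℕ) (T V : ℝ) (a : ℕ → ℂ) (S : Finset ℝ),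
    1 ≤ N → 1 ≤ T → 0 < V → (∀ n, ‖a n‖ ≤ 1) → T ≤ N → (∀ t ∈ S, 0 ≤ t ∧ t ≤ T ∧ V ≤ ‖D N a t‖) →
    (∀ t ∈ S, ∀ u ∈ S, t ≠ u → 1 ≤ |t - u|) → (S.card : ℝ) ≤ C * (N : ℝ) ^ 2 / V ^ 2 * T ^ ε := by
  obtain ⟨C0, hC0, hlogC⟩ := log_pow_le ε hε
  have hpi := Real.pi_pos
  have hC1 := Pool.Agent.W170.MV.C1_pos
  refine ⟨(2 + 8 * Real.pi + 60 * Pool.Agent.W170.MV.C1) * C0, by positivity, ?_⟩
  intro N T V a S hN hT hV ha hTN hS hsep
  have hN1 : (1 : ℝ) ≤ N := by exact_mod_cast hN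
  have hT0 : 0 < T := by linarith
  have hlog0 := Real.log_nonneg hT
  have hTe := hlogC T hT
  have hTe0 : 0 < T ^ ε := Real.rpow_pos_of_pos hT0 _
  have hV2 : 0 < V ^ 2 := by positivity
  have hS' : ∀ t ∈ S, 0 ≤ t ∧ t ≤ T := fun t ht => ⟨(hS t ht).1, (hS t ht).2.1⟩
  have hcard := card_le hT0.le hS' hsep
  have hsumV : (S.card : ℝ) * V ^ 2 ≤ ∑ t ∈ S, ‖D N a t‖ ^ 2 := by
    rw [← nsmul_eq_mul]
    refine card_nsmul_le_sum _ _ _ fun t ht => ?_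
    exact pow_le_pow_left₀ hV.le (hS t ht).2.2 2
  -- it suffices to bound the sum of squares
  suffices hmain : ∑ t ∈ S, ‖D N a t‖ ^ 2 ≤
      (2 + 8 * Real.pi + 60 * Pool.Agent.W170.MV.C1) * (1 + Real.log T) ^ 2 * (N : ℝ) ^ 2 by
    have h1 : (S.card : ℝ) * V ^ 2 ≤
        (2 + 8 * Real.pi + 60 * Pool.Agent.W170.MV.C1) * (C0 * T ^ ε) * (N : ℝ) ^ 2 := by
      refine (hsumV.trans hmain).trans ?_
      gcongr
    rw [show (2 + 8 * Real.pi + 60 * Pool.Agent.W170.MV.C1) * C0 * (N : ℝ) ^ 2 / V ^ 2 * T ^ ε =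
      (2 + 8 * Real.pi + 60 * Pool.Agent.W170.MV.C1) * (C0 * T ^ ε) * (N : ℝ) ^ 2 / V ^ 2 by ring,
      le_div_iff₀ hV2]
    exact h1
  rcases le_total ((T + 1) ^ 2) (N : ℝ) with hcase | hcase
  · -- `N ≥ (T+1)²`
    have h1 := Pool.Agent.TH181.LV.large S N T 1 hT le_rfl (by norm_num) hS' hsep a ha
    have e : ∀ t ∈ S, ‖∑ n ∈ Icc 1 N, a n * Pool.Agent.TH181.LV.E (-(1 * t) * Real.log n)‖ ^ 2 = ‖D N a t‖ ^ 2 := by
      intro t _
      unfold D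
      congr 2
      refine sum_congr rfl fun n hn => ?_
      rw [Pool.Agent.TH181.LV.cpow_E n (mem_Icc.1 hn).1 t, one_mul]
    rw [sum_congr rfl e] at h1
    refine h1.trans ?_
    have hZ : Pool.Agent.TH181.LV.Z2 S N 1 ≤ ((T + 1) ^ 2) ^ 2 := by
      unfold Pool.Agent.TH181.LV.Z2
      have h2 : ∀ t ∈ S, ∀ s ∈ S, ‖Pool.Agent.TH181.LV.F (min N ⌈|t - s|⌉₊) (1 * |t - s|)‖ ^ 2 ≤ (T + 1) ^ 2 := by
        intro t ht s hs
        have h3 := Pool.Agent.TH181.LV.F_le (min N ⌈|t - s|⌉₊) (1 * |t - s|)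
        have h4 : ((min N ⌈|t - s|⌉₊ : ℕ) : ℝ) ≤ T + 1 := by
          have h5 : ((min N ⌈|t - s|⌉₊ : ℕ) : ℝ) ≤ (⌈|t - s|⌉₊ : ℝ) := by exact_mod_cast min_le_right _ _
          have h6 := Nat.ceil_lt_add_one (abs_nonneg (t - s))
          have h7 : |t - s| ≤ T := abs_le.2 ⟨by linarith [(hS' t ht).1, (hS' s hs).2],
            by linarith [(hS' t ht).2, (hS' s hs).1]⟩
          linarith
        exact pow_le_pow_left₀ (norm_nonneg _) (h3.trans h4) 2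
      calc ∑ t ∈ S, ∑ s ∈ S, ‖Pool.Agent.TH181.LV.F (min N ⌈|t - s|⌉₊) (1 * |t - s|)‖ ^ 2
          ≤ ∑ _t ∈ S, ∑ _s ∈ S, (T + 1) ^ 2 := sum_le_sum fun t ht => sum_le_sum fun s hs => h2 t ht s hs
        _ = (S.card : ℝ) ^ 2 * (T + 1) ^ 2 := by
            simp only [sum_const, nsmul_eq_mul]; ring
        _ ≤ (T + 1) ^ 2 * (T + 1) ^ 2 := by gcongr
        _ = _ := by ring
    have hZ2 : √(Pool.Agent.TH181.LV.Z2 S N 1) ≤ N := by
      refine (Real.sqrt_le_sqrt hZ).trans ?_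
      rw [Real.sqrt_sq (by positivity)]
      exact hcase
    have h3 : (N : ℝ) * √(Pool.Agent.TH181.LV.Z2 S N 1) ≤ N * N := mul_le_mul_of_nonneg_left hZ2 (by linarith)
    have h4 : (1 : ℝ) + Real.log T ≤ (1 + Real.log T) ^ 2 := by nlinarith
    have h5 : (1 : ℝ) ≤ (1 + Real.log T) ^ 2 := by nlinarith
    calc (N : ℝ) ^ 2 * (1 + 8 * Real.pi * (1 + Real.log T)) + N * √(Pool.Agent.TH181.LV.Z2 S N 1)
        ≤ (N : ℝ) ^ 2 * (1 + 8 * Real.pi * (1 + Real.log T)) + N * N := by linarith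
      _ = (2 + 8 * Real.pi * (1 + Real.log T)) * (N : ℝ) ^ 2 := by ring
      _ ≤ (2 * (1 + Real.log T) ^ 2 + 8 * Real.pi * (1 + Real.log T) ^ 2 +
          60 * Pool.Agent.W170.MV.C1 * (1 + Real.log T) ^ 2) * (N : ℝ) ^ 2 := by
          apply mul_le_mul_of_nonneg_right _ (by positivity)
          have h6 : 8 * Real.pi * (1 + Real.log T) ≤ 8 * Real.pi * (1 + Real.log T) ^ 2 :=
            mul_le_mul_of_nonneg_left h4 (by positivity)
          have h7 : 0 ≤ 60 * Pool.Agent.W170.MV.C1 * (1 + Real.log T) ^ 2 := by positivity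
          linarith
      _ = _ := by ring
  · -- `T ≤ N ≤ (T+1)²`
    have h1 := Pool.Agent.W170.MV.main_mult hT N hN a ha S (fun t ht => ⟨(hS' t ht).1, by nlinarith [(hS' t ht).2]⟩) hsep
    have e : ∀ t ∈ S, ‖∑ n ∈ Icc 1 N, a n * Complex.exp (-(Complex.I * (t * Real.log n : ℝ)))‖ ^ 2 = ‖D N a t‖ ^ 2 := by
      intro t _
      unfold D
      congr 2
      refine sum_congr rfl fun n hn => ?_
      have hn0 : (n : ℂ) ≠ 0 := by
        have := (mem_Icc.1 hn).1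
        exact_mod_cast (by omega : n ≠ 0)
      rw [Complex.cpow_def_of_ne_zero hn0, ← Complex.natCast_log]
      congr 2
      push_cast
      ring
    rw [sum_congr rfl e] at h1
    refine h1.trans ?_
    have hJ : (S.image (fun t => ⌊t / T⌋₊)).card ≤ 2 := by
      have h2 : S.image (fun t => ⌊t / T⌋₊) ⊆ range 2 := by
        intro k hk
        obtain ⟨t, ht, rfl⟩ := mem_image.1 hk
        rw [mem_range]
        have h3 : t / T ≤ 1 := by rw [div_le_one hT0]; exact (hS' t ht).2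
        have h4 := Nat.floor_mono h3
        rw [Nat.floor_one] at h4
        omega
      have := Finset.card_le_card h2
      rwa [card_range] at this
    have hmult : ∑ n ∈ Icc 1 N, (Pool.Agent.W170.MV.mult T (S.image (fun t => ⌊t / T⌋₊)) n : ℝ) ≤ 2 * N := by
      calc ∑ n ∈ Icc 1 N, (Pool.Agent.W170.MV.mult T (S.image (fun t => ⌊t / T⌋₊)) n : ℝ)
          ≤ ∑ _n ∈ Icc 1 N, (2 : ℝ) := by
            refine sum_le_sum fun n _ => ?_
            exact_mod_cast (Pool.Agent.W170.MV.mult_le_card T _ n).trans hJ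
        _ = 2 * N := by simp; ring
    have hlogN : Real.log N ≤ 2 * (1 + Real.log T) := by
      have h2 : Real.log N ≤ Real.log ((T + 1) ^ 2) := Real.log_le_log (by linarith) hcase
      have h3 : Real.log (T + 1) ≤ 1 + Real.log T := by
        have h4 : T + 1 ≤ Real.exp 1 * T := by
          have := Real.add_one_le_exp (1 : ℝ)
          nlinarith
        have h5 := Real.log_le_log (by linarith) h4
        rwa [Real.log_mul (Real.exp_pos 1).ne' hT0.ne', Real.log_exp] at h5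
      rw [Real.log_pow] at h2
      push_cast at h2
      linarith
    have hlogN0 := Real.log_nonneg hN1
    have h2 : 2 + Real.log N ^ 2 ≤ 6 * (1 + Real.log T) ^ 2 := by
      have h3 : Real.log N ^ 2 ≤ (2 * (1 + Real.log T)) ^ 2 := pow_le_pow_left₀ hlogN0 hlogN 2
      nlinarith
    calc Pool.Agent.W170.MV.C1 * (2 + Real.log N ^ 2) * (2 * N + T) *
          ∑ n ∈ Icc 1 N, (Pool.Agent.W170.MV.mult T (S.image (fun t => ⌊t / T⌋₊)) n : ℝ)
        ≤ Pool.Agent.W170.MV.C1 * (6 * (1 + Real.log T) ^ 2) * (2 * N + N) * (2 * N) := by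
          gcongr
      _ = 36 * Pool.Agent.W170.MV.C1 * (1 + Real.log T) ^ 2 * (N : ℝ) ^ 2 := by ring
      _ ≤ _ := by
          have h3 : 0 ≤ (1 + Real.log T) ^ 2 * (N : ℝ) ^ 2 := by positivity
          nlinarith

/-- duality -/
theorem dual {N : ℕ} {a : ℕ → ℂ} (ha : ∀ n, ‖a n‖ ≤ 1) (S : Finset ℝ) :
    ∃ b : ℝ → ℂ, (∀ t, ‖b t‖ ≤ 1) ∧
      ∑ t ∈ S, ‖D N a t‖ ≤ ∑ n ∈ Icc 1 N, ‖∑ t ∈ S, b t * (n : ℂ) ^ ((t : ℂ) * Complex.I)‖ := by
  set η : ℝ → ℂ := fun t => (starRingEnd ℂ) (D N a t) / ‖D N a t‖ with hη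
  have hη1 : ∀ t, ‖η t‖ ≤ 1 := fun t => by
    rw [hη]
    simp only
    rw [norm_div, Complex.norm_conj, Complex.norm_real, norm_norm]
    exact div_self_le_one _
  have hηD : ∀ t, η t * D N a t = (‖D N a t‖ : ℂ) := fun t => by
    rw [hη]
    simp only
    by_cases h : D N a t = 0
    · simp [h]
    · have h' : (‖D N a t‖ : ℂ) ≠ 0 := by
        exact_mod_cast norm_ne_zero_iff.2 h
      rw [div_mul_eq_mul_div, mul_comm, Complex.mul_conj, Complex.normSq_eq_norm_sq]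
      push_cast
      field_simp
  refine ⟨fun t => (starRingEnd ℂ) (η t), fun t => by rw [Complex.norm_conj]; exact hη1 t, ?_⟩
  have h1 : ((∑ t ∈ S, ‖D N a t‖ : ℝ) : ℂ) = ∑ n ∈ Icc 1 N, a n * ∑ t ∈ S, η t * (n : ℂ) ^ (-((t : ℂ) * Complex.I)) := by
    rw [Complex.ofReal_sum]
    simp_rw [mul_sum]
    rw [sum_comm]
    refine sum_congr rfl fun t _ => ?_
    rw [← hηD t]
    unfold D
    rw [mul_sum]
    exact sum_congr rfl fun n _ => by ring
  have h2 : ∑ t ∈ S, ‖D N a t‖ = ‖((∑ t ∈ S, ‖D N a t‖ : ℝ) : ℂ)‖ := by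
    rw [Complex.norm_real, Real.norm_of_nonneg (sum_nonneg fun t _ => norm_nonneg _)]
  rw [h2, h1]
  refine (norm_sum_le _ _).trans (sum_le_sum fun n hn => ?_)
  rw [norm_mul]
  have h3 : ‖∑ t ∈ S, (starRingEnd ℂ) (η t) * (n : ℂ) ^ ((t : ℂ) * Complex.I)‖ =
      ‖∑ t ∈ S, η t * (n : ℂ) ^ (-((t : ℂ) * Complex.I))‖ := by
    rw [← Complex.norm_conj, map_sum]
    congr 1
    refine sum_congr rfl fun t _ => ?_
    rw [map_mul, Complex.conj_conj]
    congr 1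
    have hn0 : (n : ℂ) ≠ 0 := by
      have := (mem_Icc.1 hn).1
      exact_mod_cast (by omega : n ≠ 0)
    rw [Complex.cpow_def_of_ne_zero hn0, Complex.cpow_def_of_ne_zero hn0, ← Complex.exp_conj,
      ← Complex.natCast_log, map_mul, map_mul, Complex.conj_ofReal, Complex.conj_ofReal, Complex.conj_I]
    congr 1
    ring
  rw [h3]
  calc ‖a n‖ * _ ≤ 1 * _ := mul_le_mul_of_nonneg_right (ha n) (norm_nonneg _)
    _ = _ := one_mul _

/-- from integers to separated real numbers -/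
theorem real_of_int {N : ℕ} (hN : 1 ≤ N) {S : Finset ℝ} (h0 : ∀ t ∈ S, 0 ≤ t)
    (hsep : ∀ t ∈ S, ∀ u ∈ S, t ≠ u → 1 ≤ |t - u|) {B : ℝ}
    (hB : ∀ S' ⊆ S.image (fun t : ℝ => ⌊t⌋₊),
      ∑ n ∈ Icc 1 N, ‖∑ k ∈ S', (n : ℂ) ^ ((k : ℂ) * Complex.I)‖ ≤ B)
    (b : ℝ → ℂ) (hb : ∀ t, ‖b t‖ ≤ 1) :
    ∑ n ∈ Icc 1 N, ‖∑ t ∈ S, b t * (n : ℂ) ^ ((t : ℂ) * Complex.I)‖ ≤ (1 + Real.log N) * (4 * B) := by
  classical
  have hN1 : (1 : ℝ) ≤ N := by exact_mod_cast hN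
  have hinj := floor_inj h0 hsep
  have h1 := abel (Icc 1 N) (fun (t : ℝ) (n : ℕ) => (n : ℂ) ^ (((⌊t⌋₊ : ℕ) : ℂ) * Complex.I)) b S
    (fun t _ => hb t) (fun t => t - ⌊t⌋₊) (fun t ht => ⟨by linarith [Nat.floor_le (h0 t ht)],
      by linarith [Nat.lt_floor_add_one t]⟩) (fun n => Real.log n) (L := Real.log N)
    (Real.log_nonneg hN1) (fun n hn => by
      have h2 := mem_Icc.1 hn
      have h3 : (1 : ℝ) ≤ n := by exact_mod_cast h2.1
      exact ⟨Real.log_nonneg h3, Real.log_le_log (by linarith) (by exact_mod_cast h2.2)⟩) (B := 4 * B)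
    (fun b' hb' => cplx_coef (Icc 1 N) _ b' S hb' fun S' hS' => by
      have h4 := hB (S'.image (fun t : ℝ => ⌊t⌋₊)) (image_subset_image hS')
      refine le_trans (le_of_eq ?_) h4
      refine sum_congr rfl fun n _ => ?_
      rw [sum_image fun x hx y hy hxy => hinj (hS' hx) (hS' hy) hxy])
  refine le_trans (le_of_eq ?_) h1
  refine sum_congr rfl fun n hn => ?_
  congr 1
  refine sum_congr rfl fun t _ => ?_
  have hn0 : (n : ℂ) ≠ 0 := by
    have := (mem_Icc.1 hn).1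
    exact_mod_cast (by omega : n ≠ 0)
  rw [Complex.cpow_def_of_ne_zero hn0, Complex.cpow_def_of_ne_zero hn0, ← Complex.exp_add,
    ← Complex.natCast_log]
  congr 2
  push_cast
  ring

end Pool.Agent.V7H83.MC
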