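import Pool.Agent.V7H83.MC.B

/-!
# Coefficient free forms of the large value conjecture
-/

set_option autoImplicit false

open Finset

namespace Pool.Agent.V7H83.MC

/-- the large value conjecture -/
def Q1 : Prop := ∀ ε : ℝ, 0 < ε → ∃ C : ℝ, 0 < C ∧ ∀ (N : ℕ) (T V : ℝ) (a : ℕ → ℂ) (S : Finset ℝ),
  1 ≤ N → 1 ≤ T → 0 < V → (∀ n, ‖a n‖ ≤ 1) → (N : ℝ) * T ^ ε ≤ V ^ 2 →
  (∀ t ∈ S, 0 ≤ t ∧ t ≤ T ∧ V ≤ ‖∑ n ∈ Finset.Icc 1 N, a n * (n : ℂ) ^ (-((t : ℂ) * Complex.I))‖) →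
  (∀ t ∈ S, ∀ u ∈ S, t ≠ u → 1 ≤ |t - u|) → (S.card : ℝ) ≤ C * (N : ℝ) ^ 2 / V ^ 2 * T ^ ε

/-- the sum `∑_{t ∈ S} n^{it}` -/
noncomputable def sm (S : Finset ℕ) (n : ℕ) : ℂ := ∑ t ∈ S, (n : ℂ) ^ ((t : ℂ) * Complex.I)

/-- square root cancellation in the mean -/
def L1N : Prop := ∀ ε : ℝ, 0 < ε → ∃ C : ℝ, 0 < C ∧ ∀ (N T : ℕ) (S : Finset ℕ), 1 ≤ N → N ≤ T →
  (∀ t ∈ S, t ≤ T) → S.card ≤ N → ∑ n ∈ Icc 1 N, ‖sm S n‖ ≤ C * (T : ℝ) ^ ε * N * √(S.card : ℝ)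

/-- the bilinear form -/
def Bil : Prop := ∀ ε : ℝ, 0 < ε → ∃ C : ℝ, 0 < C ∧ ∀ (N T : ℕ) (A S : Finset ℕ), 1 ≤ N → N ≤ T →
  A ⊆ Icc 1 N → (∀ t ∈ S, t ≤ T) → S.card ≤ N → ‖∑ n ∈ A, sm S n‖ ≤ C * (T : ℝ) ^ ε * N * √(S.card : ℝ)

/-- the conjecture for indicator functions and integer points -/
def Ind : Prop := ∀ ε : ℝ, 0 < ε → ∃ C : ℝ, 0 < C ∧ ∀ (N T : ℕ) (V : ℝ) (A S : Finset ℕ), 1 ≤ N → N ≤ T →
  0 < V → A ⊆ Icc 1 N → (N : ℝ) * (T : ℝ) ^ ε ≤ V ^ 2 →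
  (∀ t ∈ S, t ≤ T ∧ V ≤ ‖∑ n ∈ A, (n : ℂ) ^ (-((t : ℂ) * Complex.I))‖) →
  (S.card : ℝ) ≤ C * (N : ℝ) ^ 2 / V ^ 2 * (T : ℝ) ^ ε

theorem ind_of_Q1 (h : Q1) : Ind := by
  classical
  intro ε hε
  obtain ⟨C, hC, H⟩ := h ε hε
  refine ⟨C, hC, fun N T V A S hN hNT hV hA hNV hS => ?_⟩
  have hinj : Function.Injective (fun k : ℕ => (k : ℝ)) := Nat.cast_injective
  have h1 := H N T V (fun n => if n ∈ A then 1 else 0) (S.map ⟨_, hinj⟩) hN
    (by exact_mod_cast hN.trans hNT) hV (fun n => by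
      by_cases hn : n ∈ A
      · simp [hn]
      · simp [hn]) hNV ?_ ?_
  · rwa [card_map] at h1
  · intro t ht
    obtain ⟨k, hk, rfl⟩ := mem_map.1 ht
    obtain ⟨h2, h3⟩ := hS k hk
    refine ⟨Nat.cast_nonneg k, (by show (k : ℝ) ≤ (T : ℝ); exact_mod_cast h2), ?_⟩
    have e : ∑ n ∈ Icc 1 N, (if n ∈ A then (1 : ℂ) else 0) * (n : ℂ) ^ (-((((k : ℝ)) : ℂ) * Complex.I)) =
        ∑ n ∈ A, (n : ℂ) ^ (-((k : ℂ) * Complex.I)) := by
      simp only [ite_mul, one_mul, zero_mul, Complex.ofReal_natCast]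
      rw [← sum_filter]
      congr 1
      ext n
      simp only [mem_filter]
      exact ⟨fun h => h.2, fun h => ⟨hA h, h⟩⟩
    show V ≤ ‖∑ n ∈ Icc 1 N, (if n ∈ A then (1 : ℂ) else 0) * (n : ℂ) ^ (-((((k : ℝ)) : ℂ) * Complex.I))‖
    rw [e]
    exact h3
  · intro t ht u hu htu
    obtain ⟨k, hk, rfl⟩ := mem_map.1 ht
    obtain ⟨l, hl, rfl⟩ := mem_map.1 hu
    have h2 : (k : ℤ) - l ≠ 0 := by
      intro h3
      apply htu
      have : k = l := by omega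
      rw [this]
    have h3 : (1 : ℤ) ≤ |(k : ℤ) - l| := Int.one_le_abs h2
    show (1 : ℝ) ≤ |(k : ℝ) - l|
    exact_mod_cast h3

lemma conj_pow (n : ℕ) (hn : 1 ≤ n) (t : ℕ) :
    (starRingEnd ℂ) ((n : ℂ) ^ ((t : ℂ) * Complex.I)) = (n : ℂ) ^ (-((t : ℂ) * Complex.I)) := by
  have hn0 : (n : ℂ) ≠ 0 := by exact_mod_cast (by omega : n ≠ 0)
  rw [Complex.cpow_def_of_ne_zero hn0, Complex.cpow_def_of_ne_zero hn0, ← Complex.exp_conj,
    ← Complex.natCast_log, map_mul, map_mul, Complex.conj_ofReal, Complex.conj_I, Complex.conj_natCast]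
  congr 1
  ring

lemma norm_pow_one (n : ℕ) (hn : 1 ≤ n) (t : ℕ) : ‖(n : ℂ) ^ (-((t : ℂ) * Complex.I))‖ = 1 := by
  have hn0 : (n : ℂ) ≠ 0 := by exact_mod_cast (by omega : n ≠ 0)
  rw [Complex.cpow_def_of_ne_zero hn0, ← Complex.natCast_log]
  have e : ((Real.log n : ℝ) : ℂ) * -((t : ℂ) * Complex.I) = (((-(Real.log n * t) : ℝ)) : ℂ) * Complex.I := by
    push_cast; ring
  rw [e, Complex.norm_exp_ofReal_mul_I]

lemma alg {c s n p C : ℝ} (h : s * s = c) (hs : s ≠ 0) (hn : n ≠ 0) (hp : p ≠ 0) :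
    c * (n * p / s) + 2 * (C * n ^ 2 * (p * p) / (n * p / s)) * 2 = p * n * s + 4 * C * p * n * s := by
  subst h
  have h1 : s * s * (n * p / s) = p * n * s := by field_simp
  have h2 : C * n ^ 2 * (p * p) / (n * p / s) = C * p * n * s := by field_simp
  rw [h1, h2]
  ring

theorem bil_of_ind (h : Ind) : Bil := by
  classical
  intro ε hε
  obtain ⟨C, hC, H⟩ := h ε hε
  refine ⟨1 + 4 * C, by positivity, fun N T A S hN hNT hA hS hcard => ?_⟩
  have hN1 : (1 : ℝ) ≤ N := by exact_mod_cast hN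
  have hT1 : (1 : ℝ) ≤ T := by exact_mod_cast hN.trans hNT
  rcases S.eq_empty_or_nonempty with h0 | h0
  · subst h0
    simp [sm]
  have hR : (0 : ℝ) < S.card := by exact_mod_cast h0.card_pos
  have hRN : (S.card : ℝ) ≤ N := by exact_mod_cast hcard
  have hTe : 1 ≤ (T : ℝ) ^ ε := Real.one_le_rpow hT1 hε.le
  obtain ⟨p, hp⟩ : ∃ p : ℝ, p = (T : ℝ) ^ (ε / 2) := ⟨_, rfl⟩
  have hp1 : 1 ≤ p := by rw [hp]; exact Real.one_le_rpow hT1 (by positivity)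
  have hpp : p * p = (T : ℝ) ^ ε := by
    rw [hp, ← Real.rpow_add (by linarith)]; congr 1; ring
  have hsq : √(S.card : ℝ) * √(S.card : ℝ) = S.card := Real.mul_self_sqrt hR.le
  have hsq0 : 0 < √(S.card : ℝ) := Real.sqrt_pos.2 hR
  set y : ℕ → ℝ := fun t => ‖∑ n ∈ A, (n : ℂ) ^ (-((t : ℂ) * Complex.I))‖ with hy
  have hy0 : ∀ t, 0 ≤ y t := fun t => norm_nonneg _
  have hyN : ∀ t, y t ≤ N := fun t => by
    rw [hy]
    refine (norm_sum_le _ _).trans ?_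
    have h1 : ∀ n ∈ A, ‖(n : ℂ) ^ (-((t : ℂ) * Complex.I))‖ = 1 := fun n hn =>
      norm_pow_one n (mem_Icc.1 (hA hn)).1 t
    rw [sum_congr rfl h1, sum_const, nsmul_eq_mul, mul_one]
    have h2 := Finset.card_le_card hA
    rw [Nat.card_Icc, Nat.add_sub_cancel] at h2
    exact_mod_cast h2
  set V : ℝ := N * p / √(S.card : ℝ) with hV
  have hV0 : 0 < V := by positivity
  have hVsq : V ^ 2 = N ^ 2 * (T : ℝ) ^ ε / S.card := by
    rw [hV, div_pow, mul_pow, Real.sq_sqrt hR.le, ← hpp]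
    ring
  have hVN : (N : ℝ) * (T : ℝ) ^ ε ≤ V ^ 2 := by
    rw [hVsq, le_div_iff₀ hR]
    have : (N : ℝ) * (T : ℝ) ^ ε * S.card ≤ N * (T : ℝ) ^ ε * N := by gcongr
    linarith
  have hV1 : 1 ≤ V := by
    have h1 : (1 : ℝ) ≤ V ^ 2 := le_trans (by nlinarith) hVN
    by_contra hcon
    push Not at hcon
    nlinarith
  -- the number of large values
  have hcount : ∀ j : ℕ, ((S.filter fun t => 2 ^ j * V ≤ y t).card : ℝ) ≤
      C * (N : ℝ) ^ 2 / (2 ^ j * V) ^ 2 * (T : ℝ) ^ ε := by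
    intro j
    have h2j : (1 : ℝ) ≤ 2 ^ j := one_le_pow₀ (by norm_num)
    refine H N T (2 ^ j * V) A _ hN hNT (by positivity) hA ?_ fun t ht => ?_
    · rw [mul_pow]
      have : (1 : ℝ) ≤ (2 ^ j) ^ 2 := one_le_pow₀ h2j
      nlinarith [sq_nonneg V]
    · have h1 := mem_filter.1 ht
      exact ⟨hS t h1.1, h1.2⟩
  have hdy : ∀ t ∈ S, y t ≤ V + 2 * ∑ j ∈ range N, 2 ^ j * V * (if 2 ^ j * V ≤ y t then 1 else 0) := by
    intro t _
    refine dyad (hy0 t) hV0.le N ?_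
    have h1 : (N : ℝ) < 2 ^ N := by exact_mod_cast Nat.lt_two_pow_self
    have h2 := hyN t
    nlinarith
  have hsum : ∑ t ∈ S, y t ≤ (1 + 4 * C) * (T : ℝ) ^ ε * N * √(S.card : ℝ) := by
    calc ∑ t ∈ S, y t ≤ ∑ t ∈ S, (V + 2 * ∑ j ∈ range N, 2 ^ j * V * (if 2 ^ j * V ≤ y t then 1 else 0)) :=
          sum_le_sum hdy
      _ = S.card * V + 2 * ∑ j ∈ range N, 2 ^ j * V * ((S.filter fun t => 2 ^ j * V ≤ y t).card : ℝ) := by
          rw [sum_add_distrib, sum_const, nsmul_eq_mul, ← mul_sum, sum_comm]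
          congr 2
          refine sum_congr rfl fun j _ => ?_
          rw [← mul_sum, sum_boole]
      _ ≤ S.card * V + 2 * ∑ j ∈ range N, 2 ^ j * V * (C * (N : ℝ) ^ 2 / (2 ^ j * V) ^ 2 * (T : ℝ) ^ ε) := by
          gcongr with j _
          exact hcount j
      _ = S.card * V + 2 * (C * (N : ℝ) ^ 2 * (T : ℝ) ^ ε / V) * ∑ j ∈ range N, (1 / 2 : ℝ) ^ j := by
          rw [mul_sum (range N) (fun j => (1 / 2 : ℝ) ^ j), mul_sum]
          congr 1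
          refine sum_congr rfl fun j _ => ?_
          have : (2 : ℝ) ^ j ≠ 0 := by positivity
          rw [one_div, inv_pow]
          field_simp
      _ ≤ S.card * V + 2 * (C * (N : ℝ) ^ 2 * (T : ℝ) ^ ε / V) * 2 := by
          have h1 : ∑ j ∈ range N, (1 / 2 : ℝ) ^ j ≤ 2 := by
            have := geom_sum_eq (show (1 / 2 : ℝ) ≠ 1 by norm_num) N
            rw [this, div_le_iff_of_neg (by norm_num)]
            have : (0 : ℝ) ≤ (1 / 2) ^ N := by positivity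
            linarith
          have h2 : 0 ≤ 2 * (C * (N : ℝ) ^ 2 * (T : ℝ) ^ ε / V) := by positivity
          nlinarith
      _ = p * N * √(S.card : ℝ) + 4 * C * p * N * √(S.card : ℝ) := by
          rw [hV, ← hpp]
          have hN0 : (N : ℝ) ≠ 0 := by linarith
          have hp0 : p ≠ 0 := by linarith
          exact alg hsq hsq0.ne' hN0 hp0
      _ ≤ _ := by
          have h1 : p ≤ (T : ℝ) ^ ε := by rw [← hpp]; nlinarith
          have h2 : 0 ≤ (N : ℝ) * √(S.card : ℝ) := by positivity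
          have h3 : p * (N * √(S.card : ℝ)) ≤ (T : ℝ) ^ ε * (N * √(S.card : ℝ)) :=
            mul_le_mul_of_nonneg_right h1 h2
          nlinarith
  refine le_trans ?_ hsum
  have e : ∑ n ∈ A, sm S n = ∑ t ∈ S, ∑ n ∈ A, (n : ℂ) ^ ((t : ℂ) * Complex.I) := by
    unfold sm
    rw [sum_comm]
  rw [e]
  refine (norm_sum_le _ _).trans (sum_le_sum fun t _ => le_of_eq ?_)
  rw [hy]
  simp only
  rw [← Complex.norm_conj, map_sum]
  congr 1
  exact sum_congr rfl fun n hn => conj_pow n (mem_Icc.1 (hA hn)).1 t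

theorem l1_of_bil (h : Bil) : L1N := by
  intro ε hε
  obtain ⟨C, hC, H⟩ := h ε hε
  refine ⟨4 * C, by positivity, fun N T S hN hNT hS hcard => ?_⟩
  have h1 := abs_le_subset (Icc 1 N) (sm S) (fun A hA => H N T A S hN hNT hA hS hcard)
  calc ∑ n ∈ Icc 1 N, ‖sm S n‖ ≤ 4 * (C * (T : ℝ) ^ ε * N * √(S.card : ℝ)) := h1
    _ = _ := by ring

theorem Q1_of_l1 (h : L1N) : Q1 := by
  classical
  intro ε hε
  obtain ⟨C1, hC1, H1⟩ := big ε hε
  obtain ⟨C, hC, H⟩ := h (ε / 8) (by positivity)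
  obtain ⟨C0, hC0, hlog⟩ := log_pow_le (ε / 8) (by positivity)
  -- the constant of the dual inequality
  obtain ⟨K, hK⟩ : ∃ K : ℝ, K = 4 * C * C0 := ⟨_, rfl⟩
  have hK0 : 0 < K := by rw [hK]; positivity
  obtain ⟨T0, hT0⟩ : ∃ T0 : ℝ, T0 = (K ^ 2) ^ (2 / ε) := ⟨_, rfl⟩
  have hT00 : 0 < T0 := by rw [hT0]; positivity
  refine ⟨max C1 (max (K ^ 2) (T0 + 1)), by positivity, fun N T V a S hN hT hV ha hNV hS hsep => ?_⟩
  have hN1 : (1 : ℝ) ≤ N := by exact_mod_cast hN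
  have hTpos : 0 < T := by linarith
  have hTe : 1 ≤ T ^ ε := Real.one_le_rpow hT hε.le
  have hV2 : 0 < V ^ 2 := by positivity
  rcases S.eq_empty_or_nonempty with h0 | h0
  · subst h0
    simp only [card_empty, CharP.cast_eq_zero]
    positivity
  have hDN : ∀ t, ‖∑ n ∈ Finset.Icc 1 N, a n * (n : ℂ) ^ (-((t : ℝ) : ℂ) * Complex.I)‖ ≤ N := by
    intro t
    refine (norm_sum_le _ _).trans ?_
    calc ∑ n ∈ Finset.Icc 1 N, ‖a n * (n : ℂ) ^ (-((t : ℝ) : ℂ) * Complex.I)‖ ≤ ∑ _n ∈ Finset.Icc 1 N, (1 : ℝ) := by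
          refine sum_le_sum fun n hn => ?_
          have hn1 := (mem_Icc.1 hn).1
          have hn0 : (n : ℂ) ≠ 0 := by exact_mod_cast (by omega : n ≠ 0)
          rw [norm_mul, Complex.cpow_def_of_ne_zero hn0, ← Complex.natCast_log]
          have e : ((Real.log n : ℝ) : ℂ) * (-((t : ℝ) : ℂ) * Complex.I) = (((-(Real.log n * t) : ℝ)) : ℂ) * Complex.I := by
            push_cast; ring
          rw [e, Complex.norm_exp_ofReal_mul_I, mul_one]
          exact ha n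
      _ = N := by simp
  obtain ⟨t₀, ht₀⟩ := h0
  have hVN : V ≤ N := by
    have h1 := (hS t₀ ht₀).2.2
    have h2 := hDN t₀
    rw [neg_mul] at h2
    exact h1.trans h2
  have hVN2 : V ^ 2 ≤ (N : ℝ) ^ 2 := pow_le_pow_left₀ hV.le hVN 2
  have hq : 1 ≤ (N : ℝ) ^ 2 / V ^ 2 := by rwa [le_div_iff₀ hV2, one_mul]
  rcases le_total T N with hTN | hTN
  · have h1 := H1 N T V a S hN hT hV ha hTN hS hsep
    refine h1.trans ?_
    have h2 : C1 ≤ max C1 (max (K ^ 2) (T0 + 1)) := le_max_left _ _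
    gcongr
  · -- the main case
    have hTf : (N : ℝ) ≤ ⌊T⌋₊ := by exact_mod_cast Nat.le_floor hTN
    have hNf : N ≤ ⌊T⌋₊ := Nat.le_floor hTN
    have hfT : ((⌊T⌋₊ : ℕ) : ℝ) ≤ T := Nat.floor_le hTpos.le
    -- the dual inequality
    have hdual : ∀ S0 ⊆ S, S0.card ≤ N → V * (S0.card : ℝ) ≤ K * T ^ (ε / 4) * N * √(S0.card : ℝ) := by
      intro S0 hS0 hc0
      obtain ⟨b, hb, h1⟩ := dual (N := N) ha S0
      have h2 : V * (S0.card : ℝ) ≤ ∑ t ∈ S0, ‖D N a t‖ := by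
        rw [mul_comm, ← nsmul_eq_mul]
        exact card_nsmul_le_sum _ _ _ fun t ht => (hS t (hS0 ht)).2.2
      have h3 := real_of_int (S := S0) (B := C * T ^ (ε / 8) * N * √(S0.card : ℝ)) hN
        (fun t ht => (hS t (hS0 ht)).1) (fun t ht u hu => hsep t (hS0 ht) u (hS0 hu)) (fun S' hS' => by
          have h4 : S'.card ≤ S0.card := (Finset.card_le_card hS').trans card_image_le
          have h5 := H N ⌊T⌋₊ S' hN hNf (fun k hk => by
            obtain ⟨t, ht, rfl⟩ := mem_image.1 (hS' hk)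
            exact Nat.floor_mono (hS t (hS0 ht)).2.1) (h4.trans hc0)
          refine h5.trans ?_
          have h6 : (S'.card : ℝ) ≤ S0.card := by exact_mod_cast h4
          gcongr) b hb
      have h7 : 1 + Real.log N ≤ C0 * T ^ (ε / 8) := by
        have h8 := hlog T hT
        have h9 : Real.log N ≤ Real.log T := Real.log_le_log (by linarith) hTN
        have h10 := Real.log_nonneg hT
        nlinarith
      have e : T ^ (ε / 4) = T ^ (ε / 8) * T ^ (ε / 8) := by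
        rw [← Real.rpow_add hTpos]; congr 1; ring
      calc V * (S0.card : ℝ) ≤ (1 + Real.log N) * (4 * (C * T ^ (ε / 8) * N * √(S0.card : ℝ))) :=
            (h2.trans h1).trans h3
        _ ≤ (C0 * T ^ (ε / 8)) * (4 * (C * T ^ (ε / 8) * N * √(S0.card : ℝ))) := by gcongr
        _ = _ := by rw [hK, e]; ring
    -- consequence
    have hcons : ∀ S0 ⊆ S, S0.card ≤ N → (S0.card : ℝ) * V ^ 2 ≤ K ^ 2 * T ^ (ε / 2) * (N : ℝ) ^ 2 := by
      intro S0 hS0 hc0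
      have h1 := hdual S0 hS0 hc0
      have hc : (0 : ℝ) ≤ S0.card := Nat.cast_nonneg _
      have hsq : √(S0.card : ℝ) * √(S0.card : ℝ) = S0.card := Real.mul_self_sqrt hc
      have h2 : V * √(S0.card : ℝ) ≤ K * T ^ (ε / 4) * N := by
        rcases hc.eq_or_lt with h3 | h3
        · rw [← h3, Real.sqrt_zero, mul_zero]
          positivity
        · have h4 : 0 < √(S0.card : ℝ) := Real.sqrt_pos.2 h3
          rw [← hsq] at h1
          have h5 : V * √(S0.card : ℝ) * √(S0.card : ℝ) ≤ K * T ^ (ε / 4) * N * √(S0.card : ℝ) := by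
            have e2 : √(√(S0.card : ℝ) * √(S0.card : ℝ)) = √(S0.card : ℝ) := by rw [hsq]
            rw [e2] at h1
            linarith
          exact le_of_mul_le_mul_right h5 h4
      have h6 : (V * √(S0.card : ℝ)) ^ 2 ≤ (K * T ^ (ε / 4) * N) ^ 2 := pow_le_pow_left₀ (by positivity) h2 2
      have e : T ^ (ε / 2) = T ^ (ε / 4) * T ^ (ε / 4) := by
        rw [← Real.rpow_add hTpos]; congr 1; ring
      rw [e]
      calc (S0.card : ℝ) * V ^ 2 = (V * √(S0.card : ℝ)) ^ 2 := by rw [mul_pow, Real.sq_sqrt hc]; ring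
        _ ≤ _ := h6
        _ = _ := by ring
    have hTe2 : T ^ (ε / 2) ≤ T ^ ε := Real.rpow_le_rpow_of_exponent_le hT (by linarith)
    rcases le_total S.card N with hcN | hcN
    · have h1 := hcons S subset_rfl hcN
      have h2 : K ^ 2 ≤ max C1 (max (K ^ 2) (T0 + 1)) := (le_max_left _ _).trans (le_max_right _ _)
      have h3 : (S.card : ℝ) ≤ K ^ 2 * T ^ (ε / 2) * (N : ℝ) ^ 2 / V ^ 2 := by
        rwa [le_div_iff₀ hV2]
      calc (S.card : ℝ) ≤ K ^ 2 * T ^ (ε / 2) * (N : ℝ) ^ 2 / V ^ 2 := h3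
        _ = K ^ 2 * ((N : ℝ) ^ 2 / V ^ 2) * T ^ (ε / 2) := by ring
        _ ≤ max C1 (max (K ^ 2) (T0 + 1)) * ((N : ℝ) ^ 2 / V ^ 2) * T ^ ε := by gcongr
        _ = _ := by ring
    · obtain ⟨S0, hS0, hc0⟩ := exists_subset_card_eq hcN
      have h1 := hcons S0 hS0 hc0.le
      rw [hc0] at h1
      have h2 : (N : ℝ) * ((N : ℝ) * T ^ ε) ≤ K ^ 2 * T ^ (ε / 2) * (N : ℝ) ^ 2 :=
        (mul_le_mul_of_nonneg_left hNV (by linarith)).trans h1
      have e : T ^ ε = T ^ (ε / 2) * T ^ (ε / 2) := by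
        rw [← Real.rpow_add hTpos]; congr 1; ring
      have h3 : 0 < T ^ (ε / 2) := Real.rpow_pos_of_pos hTpos _
      have h4 : T ^ (ε / 2) ≤ K ^ 2 := by
        rw [e] at h2
        have h5 : T ^ (ε / 2) * (T ^ (ε / 2) * (N : ℝ) ^ 2) ≤ K ^ 2 * (T ^ (ε / 2) * (N : ℝ) ^ 2) := by linarith
        exact le_of_mul_le_mul_right h5 (by positivity)
      have h5 : T ≤ T0 := by
        have h6 := Real.rpow_le_rpow h3.le h4 (show 0 ≤ 2 / ε by positivity)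
        rw [← Real.rpow_mul hTpos.le] at h6
        have e2 : ε / 2 * (2 / ε) = 1 := by field_simp
        rw [e2, Real.rpow_one, ← hT0] at h6
        exact h6
      have h6 := card_le hTpos.le (fun t ht => ⟨(hS t ht).1, (hS t ht).2.1⟩) hsep
      have h7 : T0 + 1 ≤ max C1 (max (K ^ 2) (T0 + 1)) := (le_max_right _ _).trans (le_max_right _ _)
      calc (S.card : ℝ) ≤ T0 + 1 := by linarith
        _ ≤ max C1 (max (K ^ 2) (T0 + 1)) * 1 * 1 := by linarith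
        _ ≤ max C1 (max (K ^ 2) (T0 + 1)) * ((N : ℝ) ^ 2 / V ^ 2) * T ^ ε := by gcongr
        _ = _ := by ring

theorem all : (Q1 ↔ L1N) ∧ (Q1 ↔ Bil) ∧ (Q1 ↔ Ind) :=
  ⟨⟨fun h => l1_of_bil (bil_of_ind (ind_of_Q1 h)), Q1_of_l1⟩,
    ⟨fun h => bil_of_ind (ind_of_Q1 h), fun h => Q1_of_l1 (l1_of_bil h)⟩,
    ⟨ind_of_Q1, fun h => Q1_of_l1 (l1_of_bil (bil_of_ind h))⟩⟩

end Pool.Agent.V7H83.MC
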