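import Pool.Agent.V7H83.MC.C

/-!
# Amplification by Rudin Shapiro polynomials
-/

set_option autoImplicit false

open Finset

namespace Pool.Agent.V7H83.MC

/-- Rudin Shapiro pairs -/
lemma rs (k : ℕ) : ∃ p q : ℕ → ℂ, (∀ j, ‖p j‖ ≤ 1) ∧ (∀ j, ‖q j‖ ≤ 1) ∧ ∀ z : ℂ, ‖z‖ = 1 →
    ‖∑ j ∈ range (2 ^ k), p j * z ^ j‖ ^ 2 + ‖∑ j ∈ range (2 ^ k), q j * z ^ j‖ ^ 2 = 2 * 2 ^ k := by
  induction k with
  | zero =>
    refine ⟨fun _ => 1, fun _ => 1, by simp, by simp, fun z _ => ?_⟩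
    norm_num
  | succ k ih =>
    obtain ⟨p, q, hp, hq, h⟩ := ih
    refine ⟨fun j => if j < 2 ^ k then p j else q (j - 2 ^ k),
      fun j => if j < 2 ^ k then p j else -q (j - 2 ^ k), fun j => ?_, fun j => ?_, fun z hz => ?_⟩
    · simp only
      split_ifs
      · exact hp j
      · exact hq _
    · simp only
      split_ifs
      · exact hp j
      · rw [norm_neg]; exact hq _
    · have e1 : ∑ j ∈ range (2 ^ (k + 1)), (if j < 2 ^ k then p j else q (j - 2 ^ k)) * z ^ j =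
          ∑ j ∈ range (2 ^ k), p j * z ^ j + z ^ (2 ^ k) * ∑ j ∈ range (2 ^ k), q j * z ^ j := by
        rw [pow_succ, mul_two, sum_range_add, mul_sum]
        congr 1
        · refine sum_congr rfl fun j hj => ?_
          rw [if_pos (mem_range.1 hj)]
        · refine sum_congr rfl fun j _ => ?_
          rw [if_neg (by omega), Nat.add_sub_cancel_left, pow_add]
          ring
      have e2 : ∑ j ∈ range (2 ^ (k + 1)), (if j < 2 ^ k then p j else -q (j - 2 ^ k)) * z ^ j =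
          ∑ j ∈ range (2 ^ k), p j * z ^ j - z ^ (2 ^ k) * ∑ j ∈ range (2 ^ k), q j * z ^ j := by
        rw [pow_succ, mul_two, sum_range_add, mul_sum, sub_eq_add_neg, ← sum_neg_distrib]
        congr 1
        · refine sum_congr rfl fun j hj => ?_
          rw [if_pos (mem_range.1 hj)]
        · refine sum_congr rfl fun j _ => ?_
          rw [if_neg (by omega), Nat.add_sub_cancel_left, pow_add]
          ring
      rw [e1, e2]
      have h1 := parallelogram_law_with_norm ℝ (∑ j ∈ range (2 ^ k), p j * z ^ j)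
        (z ^ (2 ^ k) * ∑ j ∈ range (2 ^ k), q j * z ^ j)
      have h2 : ‖z ^ (2 ^ k) * ∑ j ∈ range (2 ^ k), q j * z ^ j‖ = ‖∑ j ∈ range (2 ^ k), q j * z ^ j‖ := by
        rw [norm_mul, norm_pow, hz, one_pow, one_mul]
      rw [h2] at h1
      have h3 := h z hz
      have h4 : (2 : ℝ) ^ (k + 1) = 2 * 2 ^ k := by ring
      rw [h4]
      nlinarith

lemma norm_pow_one' (n : ℕ) (hn : 1 ≤ n) (t : ℕ) : ‖(n : ℂ) ^ ((t : ℂ) * Complex.I)‖ = 1 := by
  have hn0 : (n : ℂ) ≠ 0 := by exact_mod_cast (by omega : n ≠ 0)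
  rw [Complex.cpow_def_of_ne_zero hn0, ← Complex.natCast_log]
  have e : ((Real.log n : ℝ) : ℂ) * ((t : ℂ) * Complex.I) = (((Real.log n * t : ℝ)) : ℂ) * Complex.I := by
    push_cast; ring
  rw [e, Complex.norm_exp_ofReal_mul_I]

lemma sm_le (S : Finset ℕ) (n : ℕ) (hn : 1 ≤ n) : ‖sm S n‖ ≤ S.card := by
  unfold sm
  refine (norm_sum_le _ _).trans ?_
  rw [sum_congr rfl fun t _ => norm_pow_one' n hn t, sum_const, nsmul_eq_mul, mul_one]

/-- the amplification -/
theorem amp {N T k : ℕ} {S : Finset ℕ} (hS : ∀ t ∈ S, t ≤ T) {B : ℝ}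
    (hB : ∀ S' : Finset ℕ, (∀ t ∈ S', t ≤ (T + 1) * 2 ^ k) → S'.card ≤ 2 ^ k * S.card →
      ∑ n ∈ Icc 1 N, ‖sm S' n‖ ≤ B) :
    √((2 : ℝ) ^ k) * ∑ n ∈ Icc 1 N, ‖sm S n‖ ≤ 6 * B := by
  classical
  obtain ⟨p, q, hp, hq, h⟩ := rs k
  -- the bound for one polynomial
  have key : ∀ c : ℕ → ℂ, (∀ j, ‖c j‖ ≤ 1) → ∑ n ∈ Icc 1 N, ‖sm S n‖ *
      ‖∑ j ∈ range (2 ^ k), c j * ((n : ℂ) ^ (((T + 1 : ℕ) : ℂ) * Complex.I)) ^ j‖ ≤ 4 * B := by
    intro c hc
    have h1 := cplx_coef (Icc 1 N) (fun (x : ℕ × ℕ) (n : ℕ) =>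
      (n : ℂ) ^ (((x.1 + (T + 1) * x.2 : ℕ) : ℂ) * Complex.I)) (fun x => c x.2) (S ×ˢ range (2 ^ k))
      (fun x _ => hc x.2) (B := B) (fun W hW => by
        have hinj : Set.InjOn (fun x : ℕ × ℕ => x.1 + (T + 1) * x.2) (W : Set (ℕ × ℕ)) := by
          rintro ⟨t, i⟩ hx ⟨s, j⟩ hy hxy
          have hx' := mem_product.1 (hW hx)
          have hy' := mem_product.1 (hW hy)
          have ht := hS t hx'.1
          have hs := hS s hy'.1
          simp only at hxy
          have hij : i = j := by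
            rcases lt_trichotomy i j with h | h | h
            · have : (T + 1) * (i + 1) ≤ (T + 1) * j := Nat.mul_le_mul_left _ h
              rw [mul_add, mul_one] at this
              omega
            · exact h
            · have : (T + 1) * (j + 1) ≤ (T + 1) * i := Nat.mul_le_mul_left _ h
              rw [mul_add, mul_one] at this
              omega
          subst hij
          have : t = s := by omega
          rw [this]
        have h2 := hB (W.image (fun x : ℕ × ℕ => x.1 + (T + 1) * x.2)) (fun t ht => by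
          obtain ⟨x, hx, rfl⟩ := mem_image.1 ht
          have hx' := mem_product.1 (hW hx)
          have h3 := hS x.1 hx'.1
          have h4 := mem_range.1 hx'.2
          have h5 : (T + 1) * (x.2 + 1) ≤ (T + 1) * 2 ^ k := Nat.mul_le_mul_left _ h4
          rw [mul_add, mul_one] at h5
          show x.1 + (T + 1) * x.2 ≤ (T + 1) * 2 ^ k
          omega) (by
          refine card_image_le.trans ((Finset.card_le_card hW).trans ?_)
          rw [card_product, card_range, mul_comm])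
        refine le_trans (le_of_eq ?_) h2
        refine sum_congr rfl fun n _ => ?_
        unfold sm
        rw [sum_image fun x hx y hy hxy => hinj hx hy hxy])
    refine le_trans (le_of_eq ?_) h1
    refine sum_congr rfl fun n hn => ?_
    have hn1 := (mem_Icc.1 hn).1
    have hn0 : (n : ℂ) ≠ 0 := by exact_mod_cast (by omega : n ≠ 0)
    rw [← norm_mul]
    congr 1
    unfold sm
    rw [sum_product, sum_mul]
    refine sum_congr rfl fun t _ => ?_
    rw [mul_sum]
    refine sum_congr rfl fun j _ => ?_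
    have e : (n : ℂ) ^ (((t + (T + 1) * j : ℕ) : ℂ) * Complex.I) = (n : ℂ) ^ ((t : ℂ) * Complex.I) *
        ((n : ℂ) ^ (((T + 1 : ℕ) : ℂ) * Complex.I)) ^ j := by
      rw [← Complex.cpow_nat_mul, ← Complex.cpow_add _ _ hn0]
      congr 1
      push_cast
      ring
    rw [e]
    ring
  have h1 := key p hp
  have h2 := key q hq
  -- the pair is large everywhere
  have h3 : √(2 * (2 : ℝ) ^ k) * ∑ n ∈ Icc 1 N, ‖sm S n‖ ≤ 4 * B + 4 * B := by
    refine le_trans ?_ (add_le_add h1 h2)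
    rw [← sum_add_distrib, mul_sum]
    refine sum_le_sum fun n hn => ?_
    have hn1 := (mem_Icc.1 hn).1
    have hz : ‖(n : ℂ) ^ (((T + 1 : ℕ) : ℂ) * Complex.I)‖ = 1 := norm_pow_one' n hn1 (T + 1)
    have h4 := h _ hz
    rw [← mul_add, mul_comm]
    refine mul_le_mul_of_nonneg_left ?_ (norm_nonneg _)
    rw [← h4]
    refine Real.sqrt_le_iff.2 ⟨by positivity, ?_⟩
    nlinarith [norm_nonneg (∑ j ∈ range (2 ^ k), p j * ((n : ℂ) ^ (((T + 1 : ℕ) : ℂ) * Complex.I)) ^ j),
      norm_nonneg (∑ j ∈ range (2 ^ k), q j * ((n : ℂ) ^ (((T + 1 : ℕ) : ℂ) * Complex.I)) ^ j)]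
  rw [Real.sqrt_mul (by norm_num)] at h3
  have h5 : (1.41 : ℝ) ≤ √2 := by
    refine Real.le_sqrt_of_sq_le ?_
    norm_num
  have h6 : 0 ≤ √((2 : ℝ) ^ k) * ∑ n ∈ Icc 1 N, ‖sm S n‖ := by positivity
  nlinarith

end Pool.Agent.V7H83.MC
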