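import Pool.Agent.V7H83.MC.E

/-!
# One step of the iteration
-/

set_option autoImplicit false

open Finset

namespace Pool.Agent.V7H83.MC

/-- duality for subsets -/
theorem dual' {ι κ : Type*} {I A : Finset κ} (hA : A ⊆ I) (u : ι → κ → ℂ) (L : Finset ι) :
    ∃ b : ι → ℂ, (∀ t, ‖b t‖ ≤ 1) ∧ ∑ t ∈ L, ‖∑ n ∈ A, u t n‖ ≤ ∑ n ∈ I, ‖∑ t ∈ L, b t * u t n‖ := by
  set η : ι → ℂ := fun t => (starRingEnd ℂ) (∑ n ∈ A, u t n) / ‖∑ n ∈ A, u t n‖ with hη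
  have hη1 : ∀ t, ‖η t‖ ≤ 1 := fun t => by
    rw [hη]
    simp only
    rw [norm_div, Complex.norm_conj, Complex.norm_real, norm_norm]
    exact div_self_le_one _
  have hηD : ∀ t, η t * ∑ n ∈ A, u t n = (‖∑ n ∈ A, u t n‖ : ℂ) := fun t => by
    rw [hη]
    simp only
    by_cases h : ∑ n ∈ A, u t n = 0
    · simp [h]
    · have h' : (‖∑ n ∈ A, u t n‖ : ℂ) ≠ 0 := by
        exact_mod_cast norm_ne_zero_iff.2 h
      rw [div_mul_eq_mul_div, mul_comm, Complex.mul_conj, Complex.normSq_eq_norm_sq]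
      push_cast
      field_simp
  refine ⟨η, hη1, ?_⟩
  have h1 : ((∑ t ∈ L, ‖∑ n ∈ A, u t n‖ : ℝ) : ℂ) = ∑ n ∈ A, ∑ t ∈ L, η t * u t n := by
    rw [Complex.ofReal_sum, sum_comm]
    refine sum_congr rfl fun t _ => ?_
    rw [← hηD t, mul_sum]
  have h2 : ∑ t ∈ L, ‖∑ n ∈ A, u t n‖ = ‖((∑ t ∈ L, ‖∑ n ∈ A, u t n‖ : ℝ) : ℂ)‖ := by
    rw [Complex.norm_real, Real.norm_of_nonneg (sum_nonneg fun t _ => norm_nonneg _)]
  rw [h2, h1]
  refine (norm_sum_le _ _).trans ?_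
  exact sum_le_sum_of_subset_of_nonneg hA fun _ _ _ => norm_nonneg _

/-- large sets are unions of small sets -/
theorem split {N T m : ℕ} (hm : 1 ≤ m) {B : ℝ}
    (hB : ∀ S : Finset ℕ, (∀ t ∈ S, t ≤ T) → S.card ≤ m → ∑ n ∈ Icc 1 N, ‖sm S n‖ ≤ B) :
    ∀ (k : ℕ) (S : Finset ℕ), (∀ t ∈ S, t ≤ T) → S.card ≤ k →
      ∑ n ∈ Icc 1 N, ‖sm S n‖ ≤ (1 + (S.card : ℝ) / m) * B := by
  classical
  have hB0 : 0 ≤ B := by
    have := hB ∅ (by simp) (by simp)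
    simpa [sm] using this
  have hm0 : (0 : ℝ) < m := by exact_mod_cast hm
  intro k
  induction k with
  | zero =>
    intro S _ hc
    have h0 : S = ∅ := card_eq_zero.1 (by omega)
    subst h0
    simp [sm, hB0]
  | succ k ih =>
    intro S hS hc
    rcases le_or_gt S.card m with h | h
    · refine (hB S hS h).trans ?_
      have : 0 ≤ (S.card : ℝ) / m := by positivity
      nlinarith
    · obtain ⟨S0, hS0, hc0⟩ := exists_subset_card_eq h.le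
      have h1 := hB S0 (fun t ht => hS t (hS0 ht)) hc0.le
      have hc1 : (S \ S0).card = S.card - m := by rw [card_sdiff_of_subset hS0, hc0]
      have h2 := ih (S \ S0) (fun t ht => hS t (mem_sdiff.1 ht).1) (by omega)
      have e : ∀ n, sm S n = sm (S \ S0) n + sm S0 n := fun n => by
        unfold sm
        exact (sum_sdiff hS0).symm
      calc ∑ n ∈ Icc 1 N, ‖sm S n‖ ≤ ∑ n ∈ Icc 1 N, (‖sm (S \ S0) n‖ + ‖sm S0 n‖) :=
            sum_le_sum fun n _ => by rw [e n]; exact norm_add_le _ _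
        _ ≤ (1 + ((S \ S0).card : ℝ) / m) * B + B := by
            rw [sum_add_distrib]
            exact add_le_add h2 h1
        _ = (1 + (S.card : ℝ) / m) * B := by
            rw [hc1, Nat.cast_sub h.le]
            field_simp
            ring

lemma norm_conj_sum {A : Finset ℕ} {N : ℕ} (hA : A ⊆ Icc 1 N) (t : ℕ) :
    ‖∑ n ∈ A, (n : ℂ) ^ ((t : ℂ) * Complex.I)‖ = ‖∑ n ∈ A, (n : ℂ) ^ (-((t : ℂ) * Complex.I))‖ := by
  rw [← Complex.norm_conj, map_sum]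
  congr 1
  exact sum_congr rfl fun n hn => conj_pow n (mem_Icc.1 (hA hn)).1 t

/-- one step -/
theorem step {N T k m : ℕ} (hm : 1 ≤ m) {S : Finset ℕ} {B V L : ℝ} (hV : 0 ≤ V)
    (hEnd : ∀ A ⊆ Icc 1 N, ∀ S' : Finset ℕ, (∀ t ∈ S', t ≤ (T + 1) * 2 ^ k ∧
      V ≤ ‖∑ n ∈ A, (n : ℂ) ^ (-((t : ℂ) * Complex.I))‖) → (S'.card : ℝ) ≤ L)
    (hB : ∀ S' : Finset ℕ, (∀ t ∈ S', t ≤ (T + 1) * 2 ^ k) → S'.card ≤ m → ∑ n ∈ Icc 1 N, ‖sm S' n‖ ≤ B)
    (hS : ∀ t ∈ S, t ≤ T) (hc : S.card ≤ m) :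
    √((2 : ℝ) ^ k) * ∑ n ∈ Icc 1 N, ‖sm S n‖ ≤ 24 * (2 ^ k * m * V + 4 * ((1 + L / m) * B)) := by
  classical
  have hB0 : 0 ≤ B := by
    have := hB ∅ (by simp) (by simp)
    simpa [sm] using this
  have hm0 : (0 : ℝ) < m := by exact_mod_cast hm
  have h1 := amp (N := N) (k := k) hS (B := 4 * (2 ^ k * m * V + 4 * ((1 + L / m) * B))) (fun S' hS' hc' => by
    refine abs_le_subset (Icc 1 N) (sm S') fun A hA => ?_
    have e : ∑ n ∈ A, sm S' n = ∑ t ∈ S', ∑ n ∈ A, (n : ℂ) ^ ((t : ℂ) * Complex.I) := by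
      unfold sm
      rw [sum_comm]
    rw [e]
    refine (norm_sum_le _ _).trans ?_
    obtain ⟨y, hy⟩ : ∃ y : ℕ → ℝ, y = fun t : ℕ => ‖∑ n ∈ A, (n : ℂ) ^ ((t : ℂ) * Complex.I)‖ := ⟨_, rfl⟩
    have ey : ∑ t ∈ S', ‖∑ n ∈ A, (n : ℂ) ^ ((t : ℂ) * Complex.I)‖ = ∑ t ∈ S', y t := by rw [hy]
    rw [ey, ← sum_filter_add_sum_filter_not S' (fun t => V ≤ y t), add_comm]
    refine add_le_add ?_ ?_
    · calc ∑ t ∈ S'.filter (fun t => ¬ V ≤ y t), y t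
          ≤ ∑ t ∈ S'.filter (fun t => ¬ V ≤ y t), V :=
            sum_le_sum fun t ht => (not_le.1 (mem_filter.1 ht).2).le
        _ = ((S'.filter fun t => ¬ V ≤ y t).card : ℝ) * V := by
            rw [sum_const, nsmul_eq_mul]
        _ ≤ 2 ^ k * m * V := by
            refine mul_le_mul_of_nonneg_right ?_ hV
            have h2 : (S'.filter fun t => ¬ V ≤ y t).card ≤ 2 ^ k * m :=
              (card_filter_le _ _).trans (hc'.trans (Nat.mul_le_mul_left _ hc))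
            exact_mod_cast h2
    · obtain ⟨b, hb, h2⟩ := dual' hA (fun (t n : ℕ) => (n : ℂ) ^ ((t : ℂ) * Complex.I))
        (S'.filter fun t => V ≤ y t)
      have ey2 : ∑ t ∈ S'.filter (fun t => V ≤ y t), y t =
          ∑ t ∈ S'.filter (fun t => V ≤ y t), ‖∑ n ∈ A, (n : ℂ) ^ ((t : ℂ) * Complex.I)‖ := by rw [hy]
      rw [ey2]
      refine h2.trans ?_
      refine cplx_coef (Icc 1 N) (fun (t n : ℕ) => (n : ℂ) ^ ((t : ℂ) * Complex.I)) b _ (fun t _ => hb t)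
        fun W hW => ?_
      have hW1 : ∀ t ∈ W, t ≤ (T + 1) * 2 ^ k := fun t ht => hS' t (mem_filter.1 (hW ht)).1
      have h3 := split hm hB W.card W hW1 le_rfl
      have h4 : (W.card : ℝ) ≤ L := hEnd A hA W fun t ht => ⟨hW1 t ht, by
        rw [← norm_conj_sum hA t]
        have h5 := (mem_filter.1 (hW ht)).2
        rw [hy] at h5
        exact h5⟩
      refine h3.trans ?_
      gcongr)
  calc √((2 : ℝ) ^ k) * ∑ n ∈ Icc 1 N, ‖sm S n‖ ≤ 6 * (4 * (2 ^ k * m * V + 4 * ((1 + L / m) * B))) := h1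
    _ = _ := by ring

end Pool.Agent.V7H83.MC
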