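import Pool.Agent.V7H83.MC.F

/-!
# The iteration: from the endpoint to the critical size
-/

set_option autoImplicit false

open Finset

namespace Pool.Agent.V7H83.MC

/-- the endpoint -/
def End (α : ℝ) : Prop := ∀ (K : ℕ) (ε : ℝ), 0 < ε → ∃ C : ℝ, 0 < C ∧ ∀ (N : ℕ) (A S : Finset ℕ),
  1 ≤ N → A ⊆ Icc 1 N →
  (∀ t ∈ S, t ≤ N ^ K ∧ (N : ℝ) ^ (1 / 2 + ε) ≤ ‖∑ n ∈ A, (n : ℂ) ^ (-((t : ℂ) * Complex.I))‖) →
  (S.card : ℝ) ≤ C * (N : ℝ) ^ (1 + α + ε)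

/-- the critical size -/
def L1 (α : ℝ) : Prop := ∀ (K : ℕ) (ε : ℝ), 0 < ε → ∃ C : ℝ, 0 < C ∧ ∀ (N : ℕ) (S : Finset ℕ),
  1 ≤ N → (∀ t ∈ S, t ≤ N ^ K) → (S.card : ℝ) ≤ (N : ℝ) ^ (1 + α) →
  ∑ n ∈ Icc 1 N, ‖sm S n‖ ≤ C * (N : ℝ) ^ (3 / 2 + α + ε)

theorem iter {N κ m X : ℕ} (hm : 1 ≤ m) {V L Λ P r : ℝ} (hV : 0 ≤ V)
    (hEnd : ∀ A ⊆ Icc 1 N, ∀ S' : Finset ℕ, (∀ t ∈ S', t ≤ X ∧
      V ≤ ‖∑ n ∈ A, (n : ℂ) ^ (-((t : ℂ) * Complex.I))‖) → (S'.card : ℝ) ≤ L)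
    (hΛ : 1 ≤ Λ) (hP : 0 ≤ P) (hr0 : 0 ≤ r) (hr1 : r ≤ 1)
    (hstep : ∀ B : ℝ, 0 ≤ B → 24 * (2 ^ κ * m * V + 4 * ((1 + L / m) * B)) ≤ √((2 : ℝ) ^ κ) * (Λ * (P + r * B))) :
    ∀ (j T : ℕ), (T + 1) * (2 * 2 ^ κ) ^ j ≤ X → ∀ S : Finset ℕ, (∀ t ∈ S, t ≤ T) → S.card ≤ m →
      ∑ n ∈ Icc 1 N, ‖sm S n‖ ≤ (2 * Λ) ^ j * (P + r ^ j * (N * m)) := by
  intro j
  induction j with
  | zero =>
    intro T _ S _ hc
    rw [pow_zero, pow_zero, one_mul, one_mul]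
    have h1 : ∑ n ∈ Icc 1 N, ‖sm S n‖ ≤ ∑ _n ∈ Icc 1 N, (m : ℝ) :=
      sum_le_sum fun n hn => (sm_le S n (mem_Icc.1 hn).1).trans (by exact_mod_cast hc)
    rw [sum_const, Nat.card_Icc, Nat.add_sub_cancel, nsmul_eq_mul] at h1
    linarith
  | succ j ih =>
    intro T hT S hS hc
    have hX0 : 1 ≤ (2 * 2 ^ κ) ^ j := Nat.one_le_pow _ _ (by positivity)
    have hTX : (T + 1) * 2 ^ κ ≤ X := by
      refine le_trans ?_ hT
      rw [pow_succ]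
      calc (T + 1) * 2 ^ κ ≤ (T + 1) * (1 * (2 * 2 ^ κ)) := Nat.mul_le_mul_left _ (by omega)
        _ ≤ (T + 1) * ((2 * 2 ^ κ) ^ j * (2 * 2 ^ κ)) := Nat.mul_le_mul_left _ (Nat.mul_le_mul_right _ hX0)
    have hT' : ((T + 1) * 2 ^ κ + 1) * (2 * 2 ^ κ) ^ j ≤ X := by
      refine le_trans ?_ hT
      rw [pow_succ, mul_comm ((2 * 2 ^ κ) ^ j), ← mul_assoc]
      refine Nat.mul_le_mul_right _ ?_
      have h1 : 1 ≤ (T + 1) * 2 ^ κ := Nat.mul_pos (by omega) (by positivity)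
      nlinarith
    obtain ⟨B, hBdef⟩ : ∃ B : ℝ, B = (2 * Λ) ^ j * (P + r ^ j * (N * m)) := ⟨_, rfl⟩
    have hpos : 0 ≤ r ^ j * ((N : ℝ) * m) := by positivity
    have hB0 : 0 ≤ B := by rw [hBdef]; positivity
    have h1 := step hm (B := B) (L := L) hV (fun A hA S' hS' => hEnd A hA S' fun t ht =>
      ⟨(hS' t ht).1.trans hTX, (hS' t ht).2⟩) (fun S' hS' hc' => by
        rw [hBdef]
        exact ih _ hT' S' hS' hc') hS hc
    have h2 := h1.trans (hstep B hB0)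
    have hs : 0 < √((2 : ℝ) ^ κ) := Real.sqrt_pos.2 (by positivity)
    have h3 := le_of_mul_le_mul_left h2 hs
    refine h3.trans ?_
    have h4 : (1 : ℝ) ≤ (2 * Λ) ^ j := one_le_pow₀ (by linarith)
    have h5 : r * B = r * ((2 * Λ) ^ j * P) + (2 * Λ) ^ j * (r ^ (j + 1) * (N * m)) := by
      rw [hBdef]; ring
    have h6 : r * ((2 * Λ) ^ j * P) ≤ 1 * ((2 * Λ) ^ j * P) := mul_le_mul_of_nonneg_right hr1 (by positivity)
    have h7 : P ≤ (2 * Λ) ^ j * P := by nlinarith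
    have h8 : 0 ≤ (2 * Λ) ^ j * (r ^ (j + 1) * (N * m)) := by positivity
    calc Λ * (P + r * B) ≤ Λ * (2 * ((2 * Λ) ^ j * P) + 2 * ((2 * Λ) ^ j * (r ^ (j + 1) * (N * m)))) := by
          refine mul_le_mul_of_nonneg_left ?_ (by linarith)
          rw [h5]
          linarith
      _ = (2 * Λ) ^ (j + 1) * (P + r ^ (j + 1) * (N * m)) := by ring

theorem l1_of_end {α : ℝ} (hα : 0 ≤ α) (h : End α) : L1 α := by
  intro K ε hε
  obtain ⟨δ, hδ⟩ : ∃ δ : ℝ, δ = min ε 1 := ⟨_, rfl⟩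
  have hδ0 : 0 < δ := by rw [hδ]; positivity
  have hδε : δ ≤ ε := by rw [hδ]; exact min_le_left _ _
  have hδ1 : δ ≤ 1 := by rw [hδ]; exact min_le_right _ _
  obtain ⟨k, hk⟩ : ∃ k : ℕ, k = ⌈1 / δ⌉₊ := ⟨_, rfl⟩
  have hk1 : 1 / δ ≤ k := by rw [hk]; exact Nat.le_ceil _
  have hk0 : 0 < (k : ℝ) := lt_of_lt_of_le (by positivity) hk1
  have hkδ : 1 ≤ k * δ := by rwa [div_le_iff₀ hδ0] at hk1
  obtain ⟨ε', hε'⟩ : ∃ ε' : ℝ, ε' = ε / (2 * k) := ⟨_, rfl⟩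
  have hε'0 : 0 < ε' := by rw [hε']; positivity
  have hkε : k * ε' = ε / 2 := by rw [hε']; field_simp
  obtain ⟨C, hC, H⟩ := h (K + 1 + 2 * k) ε' hε'0
  refine ⟨2 * (384 * (1 + 2 * C)) ^ k + 1, by positivity, fun N S hN hS hc => ?_⟩
  have hN1 : (1 : ℝ) ≤ N := by exact_mod_cast hN
  have hN0 : (0 : ℝ) < N := by linarith
  rcases Nat.eq_or_lt_of_le hN with hN' | hN2
  · subst hN'
    simp only [Nat.cast_one, Real.one_rpow, Icc_self, sum_singleton, mul_one] at hc ⊢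
    have h1 := sm_le S 1 le_rfl
    have h2 : 0 ≤ 2 * (384 * (1 + 2 * C)) ^ k := by positivity
    linarith
  -- the size
  obtain ⟨m, hmdef⟩ : ∃ m : ℕ, m = ⌊(N : ℝ) ^ (1 + α)⌋₊ := ⟨_, rfl⟩
  have hNα : 1 ≤ (N : ℝ) ^ (1 + α) := Real.one_le_rpow hN1 (by linarith)
  have hm : 1 ≤ m := by rw [hmdef]; exact Nat.le_floor (by exact_mod_cast hNα)
  have hmle : (m : ℝ) ≤ (N : ℝ) ^ (1 + α) := by rw [hmdef]; exact Nat.floor_le (by linarith)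
  have hmge : (N : ℝ) ^ (1 + α) ≤ 2 * m := by
    have h1 := Nat.lt_floor_add_one ((N : ℝ) ^ (1 + α))
    rw [← hmdef] at h1
    have h2 : (1 : ℝ) ≤ m := by exact_mod_cast hm
    linarith
  have hm0 : (0 : ℝ) < m := by exact_mod_cast hm
  have hcm : S.card ≤ m := by rw [hmdef]; exact Nat.le_floor hc
  -- the number of translates
  have hNδ : 1 ≤ (N : ℝ) ^ δ := Real.one_le_rpow hN1 hδ0.le
  obtain ⟨κ, hκ1, hκ2⟩ := exists_nat_pow_near hNδ (show (1 : ℝ) < 2 by norm_num)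
  have hNδN : (N : ℝ) ^ δ ≤ N := by
    calc (N : ℝ) ^ δ ≤ (N : ℝ) ^ (1 : ℝ) := Real.rpow_le_rpow_of_exponent_le hN1 hδ1
      _ = N := Real.rpow_one _
  have hκN : 2 ^ κ ≤ N := by exact_mod_cast hκ1.trans hNδN
  have hX : (N ^ K + 1) * (2 * 2 ^ κ) ^ k ≤ N ^ (K + 1 + 2 * k) := by
    have h1 : N ^ K + 1 ≤ N ^ (K + 1) := by
      have : 1 ≤ N ^ K := Nat.one_le_pow _ _ (by omega)
      rw [pow_succ]
      nlinarith
    have h2 : 2 * 2 ^ κ ≤ N ^ 2 := by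
      rw [pow_two]
      exact Nat.mul_le_mul hN2 hκN
    calc (N ^ K + 1) * (2 * 2 ^ κ) ^ k ≤ N ^ (K + 1) * (N ^ 2) ^ k :=
          Nat.mul_le_mul h1 (Nat.pow_le_pow_left h2 k)
      _ = N ^ (K + 1 + 2 * k) := by rw [← pow_mul, ← pow_add]
  -- parameters
  obtain ⟨e, he⟩ : ∃ e : ℝ, e = (N : ℝ) ^ ε' := ⟨_, rfl⟩
  have he1 : 1 ≤ e := by rw [he]; exact Real.one_le_rpow hN1 hε'0.le
  obtain ⟨w, hw⟩ : ∃ w : ℝ, w = (N : ℝ) ^ (δ / 2) := ⟨_, rfl⟩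
  have hw1 : 1 ≤ w := by rw [hw]; exact Real.one_le_rpow hN1 (by positivity)
  have hww : w * w = (N : ℝ) ^ δ := by
    rw [hw, ← Real.rpow_add hN0]; congr 1; ring
  obtain ⟨s, hs⟩ : ∃ s : ℝ, s = √((2 : ℝ) ^ κ) := ⟨_, rfl⟩
  have hs0 : 0 < s := by rw [hs]; exact Real.sqrt_pos.2 (by positivity)
  have hss : s * s = 2 ^ κ := by rw [hs]; exact Real.mul_self_sqrt (by positivity)
  have hsw : s ≤ w := by
    by_contra hcon
    push Not at hcon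
    nlinarith
  have hws : w ≤ 2 * s := by
    by_contra hcon
    push Not at hcon
    have : (2 : ℝ) ^ (κ + 1) = 2 * (s * s) := by rw [hss, pow_succ]; ring
    nlinarith
  obtain ⟨P, hP⟩ : ∃ P : ℝ, P = (N : ℝ) ^ (3 / 2 + α) * w := ⟨_, rfl⟩
  have hN32 : 0 < (N : ℝ) ^ (3 / 2 + α) := Real.rpow_pos_of_pos hN0 _
  have hP0 : 0 < P := by rw [hP]; positivity
  have hw0 : 0 < w := by linarith
  have key := iter (N := N) (κ := κ) (m := m) (X := N ^ (K + 1 + 2 * k)) hm (V := (N : ℝ) ^ (1 / 2 + ε'))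
    (L := C * (N : ℝ) ^ (1 + α + ε')) (Λ := 192 * (1 + 2 * C) * e) (P := P) (r := w⁻¹)
    (Real.rpow_nonneg hN0.le _) (fun A hA S' hS' => by
      refine H N A S' hN hA fun t ht => ?_
      exact hS' t ht) (by nlinarith) hP0.le (by positivity) (inv_le_one_of_one_le₀ hw1) (fun B hB => by
      have e1 : (N : ℝ) ^ (1 / 2 + ε') * (N : ℝ) ^ (1 + α) = (N : ℝ) ^ (3 / 2 + α) * e := by
        rw [he, ← Real.rpow_add hN0, ← Real.rpow_add hN0]; congr 1; ring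
      have e2 : (N : ℝ) ^ (1 + α + ε') = (N : ℝ) ^ (1 + α) * e := by
        rw [he, ← Real.rpow_add hN0]
      have hV0 : 0 < (N : ℝ) ^ (1 / 2 + ε') := Real.rpow_pos_of_pos hN0 _
      have h1 : (2 : ℝ) ^ κ * m * (N : ℝ) ^ (1 / 2 + ε') ≤ s * (e * P) := by
        calc (2 : ℝ) ^ κ * m * (N : ℝ) ^ (1 / 2 + ε') ≤ 2 ^ κ * (N : ℝ) ^ (1 + α) * (N : ℝ) ^ (1 / 2 + ε') := by gcongr
          _ = s * s * ((N : ℝ) ^ (3 / 2 + α) * e) := by rw [hss, ← e1]; ring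
          _ ≤ s * w * ((N : ℝ) ^ (3 / 2 + α) * e) := by gcongr
          _ = _ := by rw [hP]; ring
      have h2 : C * (N : ℝ) ^ (1 + α + ε') / m ≤ 2 * C * e := by
        rw [div_le_iff₀ hm0, e2]
        have : C * ((N : ℝ) ^ (1 + α) * e) ≤ C * (2 * m * e) := by gcongr
        linarith
      have h3 : 1 + C * (N : ℝ) ^ (1 + α + ε') / m ≤ (1 + 2 * C) * e := by nlinarith
      have h4 : (1 + C * (N : ℝ) ^ (1 + α + ε') / m) * B ≤ (1 + 2 * C) * e * B :=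
        mul_le_mul_of_nonneg_right h3 hB
      have h5 : 1 ≤ 2 * (s * w⁻¹) := by
        rw [← div_eq_mul_inv, ← mul_div_assoc, le_div_iff₀ hw0]
        linarith
      have h6 : (1 + 2 * C) * e * B ≤ 2 * (s * w⁻¹) * ((1 + 2 * C) * e * B) := by
        have : 0 ≤ (1 + 2 * C) * e * B := by positivity
        nlinarith
      rw [← hs]
      have h7 : s * (e * P) ≤ (1 + 2 * C) * (s * (e * P)) := by
        have : 0 ≤ s * (e * P) := by positivity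
        nlinarith
      have h8 : 0 ≤ (1 + 2 * C) * (s * (e * P)) := by positivity
      calc 24 * (2 ^ κ * m * (N : ℝ) ^ (1 / 2 + ε') + 4 * ((1 + C * (N : ℝ) ^ (1 + α + ε') / m) * B))
          ≤ 24 * ((1 + 2 * C) * (s * (e * P)) + 4 * (2 * (s * w⁻¹) * ((1 + 2 * C) * e * B))) := by
            linarith
        _ ≤ 192 * ((1 + 2 * C) * (s * (e * P))) + 24 * (4 * (2 * (s * w⁻¹) * ((1 + 2 * C) * e * B))) := by
            linarith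
        _ = s * (192 * (1 + 2 * C) * e * (P + w⁻¹ * B)) := by ring)
    k (N ^ K) hX S hS hcm
  refine key.trans ?_
  -- the exponents
  have hwk : (N : ℝ) ^ (1 / 2 : ℝ) ≤ w ^ k := by
    rw [hw, ← Real.rpow_natCast, ← Real.rpow_mul hN0.le]
    refine Real.rpow_le_rpow_of_exponent_le hN1 ?_
    nlinarith
  have e3 : (N : ℝ) * (N : ℝ) ^ (1 + α) = (N : ℝ) ^ (3 / 2 + α) * (N : ℝ) ^ (1 / 2 : ℝ) := by
    have : (N : ℝ) * (N : ℝ) ^ (1 + α) = (N : ℝ) ^ (1 : ℝ) * (N : ℝ) ^ (1 + α) := by rw [Real.rpow_one]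
    rw [this, ← Real.rpow_add hN0, ← Real.rpow_add hN0]
    congr 1
    ring
  have h1 : w⁻¹ ^ k * ((N : ℝ) * m) ≤ (N : ℝ) ^ (3 / 2 + α) := by
    rw [inv_pow]
    have hwk0 : 0 < w ^ k := by positivity
    rw [inv_mul_le_iff₀ hwk0]
    calc (N : ℝ) * m ≤ N * (N : ℝ) ^ (1 + α) := by gcongr
      _ = (N : ℝ) ^ (3 / 2 + α) * (N : ℝ) ^ (1 / 2 : ℝ) := e3
      _ ≤ (N : ℝ) ^ (3 / 2 + α) * w ^ k := by gcongr
      _ = _ := mul_comm _ _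
  have h2 : P + w⁻¹ ^ k * ((N : ℝ) * m) ≤ 2 * P := by
    have : (N : ℝ) ^ (3 / 2 + α) ≤ P := by rw [hP]; nlinarith
    linarith
  have e4 : e ^ k = (N : ℝ) ^ (ε / 2) := by
    rw [he, ← Real.rpow_natCast, ← Real.rpow_mul hN0.le]
    congr 1
    linarith
  have h3 : e ^ k * P ≤ (N : ℝ) ^ (3 / 2 + α + ε) := by
    rw [e4, hP, hw, ← Real.rpow_add hN0, ← Real.rpow_add hN0]
    refine Real.rpow_le_rpow_of_exponent_le hN1 ?_
    linarith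
  calc (2 * (192 * (1 + 2 * C) * e)) ^ k * (P + w⁻¹ ^ k * ((N : ℝ) * m))
      ≤ (2 * (192 * (1 + 2 * C) * e)) ^ k * (2 * P) := by gcongr
    _ = 2 * (384 * (1 + 2 * C)) ^ k * (e ^ k * P) := by
        rw [show 2 * (192 * (1 + 2 * C) * e) = (384 * (1 + 2 * C)) * e by ring, mul_pow]
        ring
    _ ≤ 2 * (384 * (1 + 2 * C)) ^ k * (N : ℝ) ^ (3 / 2 + α + ε) := by gcongr
    _ ≤ _ := by
        have : 0 < (N : ℝ) ^ (3 / 2 + α + ε) := Real.rpow_pos_of_pos hN0 _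
        nlinarith

end Pool.Agent.V7H83.MC
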